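import Pool.Agent.Q180.UW.StmG
import Pool.Agent.Q210.D3.T2

/-!
# Project UW, job UBAL: the balanced monomials are good
-/

set_option autoImplicit false

namespace Pool.Agent.Q210.UW

open Polynomial Pool.Agent.H204R3.CM
open Pool.Agent.Q60.D3 (AV IsHom IsCM IsIsogenousToProd cx mulF HasWeight conjF cxM S_L0 S_hodge)
open Pool.Agent.Q180.UW
open Pool.Agent.Q210.D3 (mulF_apply isHom_comp hw_comp isHom_fst isHom_snd hw_alt alt_cxM decomp
  hw_mul conjF_mul split_mem sigE)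

/-- A factor of a monomial. -/
inductive Fac (𝒲 : Set (ℕ × ℕ)) (𝒞 : AV → Prop) (X : AV) : Type 1
  | det (A : AV) (n : ℕ) (D : Itm 𝒲 𝒞 A n) (h : Fin n → (X.H →ₗ[ℚ] A.H))
      (hh : ∀ k, IsHom X A (h k)) : Fac 𝒲 𝒞 X
  | bil (β : MultilinearMap ℚ (fun _ : Fin 2 => X.H) ℚ) (hβ : HasWeight X.per (cxM β) 0) : Fac 𝒲 𝒞 X

variable {𝒲 : Set (ℕ × ℕ)} {𝒞 : AV → Prop} {X Y : AV}

/-- The number of the variables. -/
def Fac.N : Fac 𝒲 𝒞 X → ℕ
  | .det _ n _ _ _ => n
  | .bil _ _ => 2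

/-- The form. -/
noncomputable def Fac.F : (f : Fac 𝒲 𝒞 X) → MultilinearMap ℚ (fun _ : Fin f.N => X.H) ℂ
  | .det _ _ D h _ => D.δ.toMultilinearMap.compLinearMap h
  | .bil β _ => cxM β

/-- The weight. -/
def Fac.wt : Fac 𝒲 𝒞 X → (ℂ ≃+* ℂ) → ℤ
  | .det _ _ D _ _, σ => D.s σ
  | .bil _ _, _ => 0

open Classical in
/-- Is it not a coordinate on a variety of CM type? -/
noncomputable def Fac.big : Fac 𝒲 𝒞 X → ℕ
  | .det A n _ _ _ => if n = 1 ∧ InC 𝒞 A then 0 else 1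
  | .bil _ _ => 0

/-- Is it a bilinear form? -/
def Fac.two : Fac 𝒲 𝒞 X → ℕ
  | .det _ _ _ _ _ => 0
  | .bil _ _ => 1

/-- The variables of the product of a list. -/
def V : List (Fac 𝒲 𝒞 X) → Type
  | [] => Empty
  | f :: l => Fin f.N ⊕ V l

instance instFV : (l : List (Fac 𝒲 𝒞 X)) → Fintype (V l)
  | [] => inferInstanceAs (Fintype Empty)
  | f :: l => by
    have _ := instFV l
    exact inferInstanceAs (Fintype (Fin f.N ⊕ V l))

instance instDV : (l : List (Fac 𝒲 𝒞 X)) → DecidableEq (V l)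
  | [] => inferInstanceAs (DecidableEq Empty)
  | f :: l => by
    have _ := instDV l
    exact inferInstanceAs (DecidableEq (Fin f.N ⊕ V l))

/-- The product of a list. -/
noncomputable def val : (l : List (Fac 𝒲 𝒞 X)) → MultilinearMap ℚ (fun _ : V l => X.H) ℂ
  | [] => MultilinearMap.constOfIsEmpty ℚ (fun _ : Empty => X.H) (1 : ℂ)
  | f :: l => mulF f.F (val l)

theorem val_cons (f : Fac 𝒲 𝒞 X) (l : List (Fac 𝒲 𝒞 X)) (v : Fin f.N ⊕ V l → X.H) :
    val (f :: l) v = f.F (fun k => v (Sum.inl k)) * val l (fun k => v (Sum.inr k)) := rfl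

theorem good_eq (h3 : S_good_reindex) {κ κ' : Type} [Fintype κ] [DecidableEq κ] [Fintype κ']
    [DecidableEq κ'] (e : κ ≃ κ') {F : MultilinearMap ℚ (fun _ : κ => X.H) ℂ}
    {F' : MultilinearMap ℚ (fun _ : κ' => X.H) ℂ} (h : ∀ v, F' v = F fun k => v (e k))
    (hF : Good 𝒲 𝒞 X κ F) : Good 𝒲 𝒞 X κ' F' := by
  have h1 := h3 𝒲 𝒞 X κ κ' e F hF
  have h2 : F.domDomCongr e = F' := by
    ext v
    rw [h v]
    rfl
  rwa [h2] at h1

theorem perm_val {l l' : List (Fac 𝒲 𝒞 X)} (h : l.Perm l') :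
    ∃ e : V l ≃ V l', ∀ v : V l' → X.H, val l' v = val l (fun k => v (e k)) := by
  induction h with
  | nil => exact ⟨Equiv.refl _, fun v => rfl⟩
  | cons x _ ih =>
    obtain ⟨e, he⟩ := ih
    refine ⟨Equiv.sumCongr (Equiv.refl (Fin x.N)) e, fun v => ?_⟩
    refine (val_cons _ _ v).trans ?_
    rw [he]
    rfl
  | swap x y l =>
    refine ⟨((Equiv.sumAssoc (Fin y.N) (Fin x.N) (V l)).symm.trans
      ((Equiv.sumComm (Fin y.N) (Fin x.N)).sumCongr (Equiv.refl (V l)))).trans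
      (Equiv.sumAssoc (Fin x.N) (Fin y.N) (V l)), fun v => ?_⟩
    refine (val_cons _ _ v).trans ?_
    refine (congrArg (fun t => x.F (fun k => v (Sum.inl k)) * t) (val_cons y l _)).trans ?_
    refine Eq.trans ?_ (val_cons _ _ _).symm
    refine Eq.trans ?_ (congrArg _ (val_cons _ _ _).symm)
    refine (mul_left_comm _ _ _).trans ?_
    rfl
  | trans _ _ ih1 ih2 =>
    obtain ⟨e1, h1⟩ := ih1
    obtain ⟨e2, h2⟩ := ih2
    exact ⟨e1.trans e2, fun v => (h2 v).trans (h1 _)⟩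

theorem good_perm (h3 : S_good_reindex) {l l' : List (Fac 𝒲 𝒞 X)} (h : l.Perm l')
    (hl : Good 𝒲 𝒞 X (V l) (val l)) : Good 𝒲 𝒞 X (V l') (val l') := by
  obtain ⟨e, he⟩ := perm_val h
  exact good_eq h3 e he hl

/-- The pull-back of a factor. -/
def Fac.pull (g : Y.H →ₗ[ℚ] X.H) (hg : IsHom Y X g) : Fac 𝒲 𝒞 X → Fac 𝒲 𝒞 Y
  | .det A n D h hh => .det A n D (fun k => (h k).comp g) (fun k => isHom_comp (hh k) hg)
  | .bil β hβ => .bil (β.compLinearMap fun _ => g) (hw_comp hβ (fun _ => g) fun _ => hg)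

theorem pull_wt (g : Y.H →ₗ[ℚ] X.H) (hg : IsHom Y X g) (f : Fac 𝒲 𝒞 X) (σ : ℂ ≃+* ℂ) :
    (f.pull g hg).wt σ = f.wt σ := by
  cases f <;> rfl

theorem pull_big (g : Y.H →ₗ[ℚ] X.H) (hg : IsHom Y X g) (f : Fac 𝒲 𝒞 X) :
    (f.pull g hg).big = f.big := by
  cases f <;> rfl

theorem val_pull (g : Y.H →ₗ[ℚ] X.H) (hg : IsHom Y X g) (l : List (Fac 𝒲 𝒞 X)) :
    ∃ e : V (l.map (Fac.pull g hg)) ≃ V l, ∀ v : V (l.map (Fac.pull g hg)) → Y.H,
      val (l.map (Fac.pull g hg)) v = val l (fun k => g (v (e.symm k))) := by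
  induction l with
  | nil => exact ⟨Equiv.refl _, fun v => rfl⟩
  | cons f l ih =>
    obtain ⟨e, he⟩ := ih
    cases f with
    | det A n D h hh =>
      refine ⟨Equiv.sumCongr (Equiv.refl (Fin n)) e, fun v => ?_⟩
      refine (val_cons _ _ v).trans ?_
      rw [he]
      rfl
    | bil β hβ =>
      refine ⟨Equiv.sumCongr (Equiv.refl (Fin 2)) e, fun v => ?_⟩
      refine (val_cons _ _ v).trans ?_
      rw [he]
      rfl

/-- A list is balanced. -/
def LBal (l : List (Fac 𝒲 𝒞 X)) : Prop := ∀ σ : ℂ ≃+* ℂ, (l.map fun f => f.wt σ).sum = 0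

/-- The number of factors of the second kind. -/
noncomputable def cnt (l : List (Fac 𝒲 𝒞 X)) : ℕ := (l.map Fac.big).sum

/-- The number of bilinear forms. -/
def cn2 (l : List (Fac 𝒲 𝒞 X)) : ℕ := (l.map Fac.two).sum

theorem LBal.perm {l l' : List (Fac 𝒲 𝒞 X)} (h : l.Perm l') (hl : LBal l) : LBal l' := by
  intro d
  rw [← hl d]
  exact ((h.map _).sum_eq).symm

theorem cnt_perm {l l' : List (Fac 𝒲 𝒞 X)} (h : l.Perm l') : cnt l = cnt l' := (h.map _).sum_eq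

theorem cn2_perm {l l' : List (Fac 𝒲 𝒞 X)} (h : l.Perm l') : cn2 l = cn2 l' := (h.map _).sum_eq

theorem val_append (l l' : List (Fac 𝒲 𝒞 X)) :
    ∃ e : V l ⊕ V l' ≃ V (l ++ l'), ∀ v : V (l ++ l') → X.H,
      val (l ++ l') v = val l (fun k => v (e (Sum.inl k))) * val l' (fun k => v (e (Sum.inr k))) := by
  induction l with
  | nil =>
    refine ⟨Equiv.emptySum Empty (V l'), fun v => ?_⟩
    refine (one_mul _).symm.trans ?_
    rfl
  | cons f l ih =>
    obtain ⟨e, he⟩ := ih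
    refine ⟨(Equiv.sumAssoc (Fin f.N) (V l) (V l')).trans
      (Equiv.sumCongr (Equiv.refl (Fin f.N)) e), fun v => ?_⟩
    refine (val_cons _ _ v).trans ?_
    refine (congrArg _ (he fun k => v (Sum.inr k))).trans ?_
    exact (mul_assoc _ _ _).symm

theorem val_ofFn {m : ℕ} (φ : Fin m → Fac 𝒲 𝒞 X) :
    ∃ e : (Σ j, Fin (φ j).N) ≃ V (List.ofFn φ), ∀ v : V (List.ofFn φ) → X.H,
      val (List.ofFn φ) v = ∏ j, (φ j).F fun k => v (e ⟨j, k⟩) := by
  induction m with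
  | zero =>
    have h0 : List.ofFn φ = [] := List.ofFn_zero
    rw [h0]
    have _ : IsEmpty (V ([] : List (Fac 𝒲 𝒞 X))) := inferInstanceAs (IsEmpty Empty)
    refine ⟨Equiv.equivOfIsEmpty _ _, fun v => ?_⟩
    rw [Finset.univ_eq_empty, Finset.prod_empty]
    rfl
  | succ m ih =>
    obtain ⟨e, he⟩ := ih fun j => φ j.succ
    have h0 : List.ofFn φ = φ 0 :: List.ofFn fun j => φ j.succ := List.ofFn_succ
    rw [h0]
    refine ⟨(sigE fun j => (φ j).N).trans (Equiv.sumCongr (Equiv.refl _) e), fun v => ?_⟩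
    refine (val_cons _ _ v).trans ?_
    rw [he, Fin.prod_univ_succ]
    rfl

/-- The good forms as a subspace. -/
noncomputable def goodSub (h2 : S_good_lin) (𝒲 : Set (ℕ × ℕ)) (𝒞 : AV → Prop) (X : AV) (κ : Type)
    [Fintype κ] [DecidableEq κ] : Submodule ℂ (MultilinearMap ℚ (fun _ : κ => X.H) ℂ) :=
  { carrier := {F | Good 𝒲 𝒞 X κ F}
    zero_mem' := (h2 𝒲 𝒞 X κ).2.2
    add_mem' := fun {a b} ha hb => (h2 𝒲 𝒞 X κ).1 a b ha hb
    smul_mem' := fun c a ha => (h2 𝒲 𝒞 X κ).2.1 c a ha }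

/-- The list of the coordinates on the auxiliary variety. -/
noncomputable def pl (X : AV) {Y : AV} {k : ℕ} (B : Fin k → AV) (L : ∀ c, Itm 𝒲 𝒞 (B c) 1)
    (pr : ∀ c, Y.H →ₗ[ℚ] (B c).H) (hpr : ∀ c, IsHom Y (B c) (pr c)) : Fin k → Fac 𝒲 𝒞 (X.prod Y) :=
  fun c => .det (B c) 1 (L c) (fun _ => (pr c).comp (LinearMap.snd ℚ X.H Y.H))
    fun _ => isHom_comp (hpr c) (isHom_snd X Y)

/-- The second good form of the induction step. -/
theorem step_F (h2 : S_good_lin) (h3 : S_good_reindex) {k : ℕ} (B : Fin k → AV)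
    (L : ∀ c, Itm 𝒲 𝒞 (B c) 1)
    (pr : ∀ c, Y.H →ₗ[ℚ] (B c).H) (hpr : ∀ c, IsHom Y (B c) (pr c))
    (η : Y.H [⋀^Fin k]→ₗ[ℚ] ℂ)
    (hη : ∀ y : Fin k → Y.H,
      η y = (Matrix.of fun a c : Fin k => (L c).δ fun _ => pr c (y a)).det)
    (l : List (Fac 𝒲 𝒞 X))
    (hg : Good 𝒲 𝒞 (X.prod Y) (V (List.ofFn (pl X B L pr hpr) ++
        l.map (Fac.pull (LinearMap.fst ℚ X.H Y.H) (isHom_fst X Y))))
      (val (List.ofFn (pl X B L pr hpr) ++
        l.map (Fac.pull (LinearMap.fst ℚ X.H Y.H) (isHom_fst X Y)))))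
    (F' : MultilinearMap ℚ (fun _ : V l ⊕ Fin k => (X.prod Y).H) ℂ)
    (hF' : ∀ v : V l ⊕ Fin k → X.H × Y.H,
      F' v = val l (fun a => (v (Sum.inl a)).1) * η (fun a => (v (Sum.inr a)).2)) :
    Good 𝒲 𝒞 (X.prod Y) (V l ⊕ Fin k) F' := by
  obtain ⟨e0, he0⟩ := val_pull (𝒲 := 𝒲) (𝒞 := 𝒞) (X := X) (Y := X.prod Y)
    (LinearMap.fst ℚ X.H Y.H) (isHom_fst X Y) l
  obtain ⟨e1, he1⟩ := val_ofFn (pl X B L pr hpr)
  obtain ⟨e3, he3⟩ := val_append (List.ofFn (pl X B L pr hpr))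
    (l.map (Fac.pull (LinearMap.fst ℚ X.H Y.H) (isHom_fst X Y)))
  let s : (Σ _ : Fin k, Fin 1) ≃ Fin k := Equiv.sigmaUnique (Fin k) fun _ => Fin 1
  let e : Equiv.Perm (Fin k) → (V (List.ofFn (pl X B L pr hpr) ++
      l.map (Fac.pull (LinearMap.fst ℚ X.H Y.H) (isHom_fst X Y))) ≃ V l ⊕ Fin k) := fun τ =>
    e3.symm.trans ((Equiv.sumComm _ _).trans (Equiv.sumCongr e0 ((e1.symm.trans s).trans τ)))
  have hel : ∀ (τ : Equiv.Perm (Fin k)) (c : Fin k),
      e τ (e3 (Sum.inl (e1 ⟨c, (0 : Fin 1)⟩))) = Sum.inr (τ c) := by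
    intro τ c
    change (Equiv.sumCongr e0 ((e1.symm.trans s).trans τ)) (Equiv.sumComm _ _
      (e3.symm (e3 (Sum.inl (e1 ⟨c, (0 : Fin 1)⟩))))) = _
    rw [Equiv.symm_apply_apply]
    change Sum.inr (τ (s (e1.symm (e1 ⟨c, (0 : Fin 1)⟩)))) = _
    rw [Equiv.symm_apply_apply]
    rfl
  have her : ∀ (τ : Equiv.Perm (Fin k)) (x : V (l.map (Fac.pull (𝒲 := 𝒲) (𝒞 := 𝒞) (X := X)
      (Y := X.prod Y) (LinearMap.fst ℚ X.H Y.H) (isHom_fst X Y)))), e τ (e3 (Sum.inr x)) = Sum.inl (e0 x) := by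
    intro τ x
    change (Equiv.sumCongr e0 ((e1.symm.trans s).trans τ)) (Equiv.sumComm _ _
      (e3.symm (e3 (Sum.inr x)))) = _
    rw [Equiv.symm_apply_apply]
    rfl
  have hdec : F' = ∑ τ : Equiv.Perm (Fin k), ((Equiv.Perm.sign τ : ℤ) : ℂ) •
      MultilinearMap.domDomCongr (e τ) (val (List.ofFn (pl X B L pr hpr) ++
        l.map (Fac.pull (LinearMap.fst ℚ X.H Y.H) (isHom_fst X Y)))) := by
    ext v
    refine (hF' v).trans ?_
    rw [hη, Matrix.det_apply', Finset.mul_sum, sum_apply]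
    refine Finset.sum_congr rfl fun τ _ => ?_
    rw [smul_apply, smul_eq_mul, MultilinearMap.domDomCongr_apply, he3, he1, he0]
    have e5 : (fun x => (LinearMap.fst ℚ X.H Y.H) (v (e τ (e3 (Sum.inr (e0.symm x)))))) =
        fun x => (v (Sum.inl x)).1 := by
      funext x
      rw [her, Equiv.apply_symm_apply]
      rfl
    have e6 : ∀ c : Fin k, ((pl X B L pr hpr c).F fun j => v (e τ (e3 (Sum.inl (e1 ⟨c, j⟩))))) =
        (L c).δ fun _ => pr c (v (Sum.inr (τ c))).2 := by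
      intro c
      change ((L c).δ fun j : Fin 1 => pr c (v (e τ (e3 (Sum.inl (e1 ⟨c, j⟩))))).2) = _
      congr 1
      funext j
      fin_cases j
      change pr c (v (e τ (e3 (Sum.inl (e1 ⟨c, (0 : Fin 1)⟩))))).2 = _
      rw [hel]
    rw [Finset.prod_congr rfl fun c _ => e6 c]
    refine Eq.trans ?_ (congrArg (fun t => ((Equiv.Perm.sign τ : ℤ) : ℂ) *
      ((∏ c, (L c).δ fun _ => pr c (v (Sum.inr (τ c))).2) * val l t)) e5.symm)
    simp only [Matrix.of_apply]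
    ring
  rw [hdec]
  refine Submodule.sum_mem (goodSub h2 𝒲 𝒞 (X.prod Y) (V l ⊕ Fin k)) fun τ _ => ?_
  refine Submodule.smul_mem _ _ ?_
  exact h3 _ _ _ _ _ (e τ) _ hg

/-- The induction step. -/
theorem step (h𝒞 : ∀ (e M : ℕ) (B : AV), (e, M) ∈ 𝒲 → IsCM B → 2 * Module.finrank ℂ B.T = e → 𝒞 B)
    (h2 : S_good_lin) (h3 : S_good_reindex) (h6 : S_ins) (h7 : S_pol) (h8 : S_weil)
    (h9 : S_pow) {A : AV} {n : ℕ} (D : Itm 𝒲 𝒞 A n) (hn : ¬(n = 1 ∧ InC 𝒞 A))
    (h : Fin n → (X.H →ₗ[ℚ] A.H)) (hh : ∀ k, IsHom X A (h k))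
    (l : List (Fac 𝒲 𝒞 X)) (hl : LBal (.det A n D h hh :: l))
    (IH : ∀ (Y : AV) (l' : List (Fac 𝒲 𝒞 Y)), cnt l' = cnt l → LBal l' →
      Good 𝒲 𝒞 Y (V l') (val l')) :
    Good 𝒲 𝒞 X (V (.det A n D h hh :: l)) (val (.det A n D h hh :: l)) := by
  obtain ⟨e, M, P, φ, μ, hW, hP, hφ, hφ0, hdim, hμ, hδ, hs1, hs2, hs3, hnM⟩ := D.kind.resolve_left hn
  have hk : ∀ σ, ∃ p : ℕ, -D.s σ = 2 * (p : ℤ) - ((2 * M - n : ℕ) : ℤ) ∧ p ≤ 2 * M - n := by
    intro σ
    obtain ⟨p, hp1, hp2⟩ := hs3 σ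
    have h1 := hs2 σ (σ.trans (starRingAut (R := ℂ))) rfl
    obtain ⟨q, hq1, hq2⟩ := hs3 (σ.trans (starRingAut (R := ℂ)))
    refine ⟨M - p, ?_, ?_⟩
    · rw [Nat.cast_sub hp2, Nat.cast_sub hnM.le]
      push_cast
      linarith
    · have h3 : (p : ℤ) + q = n := by linarith
      have h4 : p + q = n := by exact_mod_cast h3
      omega
  obtain ⟨k', Y, ψ, η, η', b, B, pr, L, B', pr', L', a1, a2, a3, a4, a5, a6, a7, a8, a9, a10, a11,
    a12, a13, a14, a15⟩ := h9 𝒲 𝒞 e P hP (fun B hB hd => h𝒞 e M B hW hB hd) μ hμ (2 * M - n)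
    (by omega) (fun σ => -D.s σ) (fun σ τ hστ => by rw [hs1 σ τ hστ])
    (fun σ τ hστ => by rw [hs2 σ τ hστ]) hk
  let l' : List (Fac 𝒲 𝒞 (X.prod Y)) := l.map (Fac.pull (LinearMap.fst ℚ X.H Y.H) (isHom_fst X Y))
  have hcnt : cnt (List.ofFn (pl X B' L' pr' a10) ++ l') = cnt l := by
    unfold cnt
    rw [List.map_append, List.sum_append, List.map_ofFn, List.sum_ofFn]
    have e1 : ∑ c, (Fac.big ∘ pl X B' L' pr' a10) c = 0 := Finset.sum_eq_zero fun c _ =>
      if_pos ⟨rfl, a9 c⟩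
    have e2 : List.map Fac.big l' = List.map Fac.big l := by
      rw [List.map_map]
      refine List.map_congr_left fun f _ => ?_
      exact pull_big _ _ f
    rw [e1, e2, zero_add]
  have hbal : LBal (List.ofFn (pl X B' L' pr' a10) ++ l') := by
    intro σ
    have e0 := hl σ
    rw [List.map_cons, List.sum_cons] at e0
    rw [List.map_append, List.sum_append, List.map_ofFn, List.sum_ofFn]
    have e1 : ∑ c, ((fun f : Fac 𝒲 𝒞 (X.prod Y) => f.wt σ) ∘ pl X B' L' pr' a10) c =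
        (Fac.det A n D h hh : Fac 𝒲 𝒞 X).wt σ := by
      change ∑ c, (L' c).s σ = D.s σ
      rw [a12 σ]
      ring
    have e2 : List.map (fun f => f.wt σ) l' = List.map (fun f => f.wt σ) l := by
      rw [List.map_map]
      refine List.map_congr_left fun f _ => ?_
      exact pull_wt _ _ f σ
    rw [e1, e2, e0]
  have hg1 := IH _ _ hcnt hbal
  -- the good form with `η'`
  let G' : MultilinearMap ℚ (fun _ : V l ⊕ Fin k' => (X.prod Y).H) ℂ :=
    mulF ((val l).compLinearMap fun _ => LinearMap.fst ℚ X.H Y.H)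
      (η'.toMultilinearMap.compLinearMap fun _ => LinearMap.snd ℚ X.H Y.H)
  have hG' : Good 𝒲 𝒞 (X.prod Y) (V l ⊕ Fin k') G' :=
    step_F h2 h3 B' L' pr' a10 η' a14 l hg1 G' fun v => rfl
  -- the good form with `η`
  let F0 : MultilinearMap ℚ (fun _ : Fin n ⊕ Fin (2 * M - n) => (A.prod Y).H) ℂ :=
    mulF (D.δ.toMultilinearMap.compLinearMap fun _ => LinearMap.fst ℚ A.H Y.H)
      (η.toMultilinearMap.compLinearMap fun _ => LinearMap.snd ℚ A.H Y.H)
  have hF0 : Good 𝒲 𝒞 (A.prod Y) (Fin n ⊕ Fin (2 * M - n)) F0 :=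
    h8 𝒲 𝒞 A Y e M n (2 * M - n) P φ ψ μ D.δ η D.s hW hP hφ a1 hφ0 a2 hdim a3 (by omega) hδ a4
      D.wt a5 a6 F0 fun v => rfl
  let F' : MultilinearMap ℚ (fun _ : Fin n ⊕ Fin (2 * M - n) => (X.prod Y).H) ℂ :=
    mulF (D.δ.toMultilinearMap.compLinearMap fun k => (h k).comp (LinearMap.fst ℚ X.H Y.H))
      (η.toMultilinearMap.compLinearMap fun _ => LinearMap.snd ℚ X.H Y.H)
  have hF' : Good 𝒲 𝒞 (X.prod Y) (Fin n ⊕ Fin (2 * M - n)) F' :=
    h7 𝒲 𝒞 X A Y n (2 * M - n) D.δ η F0 (fun v => rfl) hF0 h hh F' fun v => rfl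
  exact h6 𝒲 𝒞 X Y (Fin n) (V l) (2 * M - n) k' b η η' a15
    (D.δ.toMultilinearMap.compLinearMap h) (val l) F' G' (fun v => rfl) (fun v => rfl) hF' hG'

/-! ## The base of the induction -/

/-- Rational forms of degree two and weight zero are good. -/
theorem good_two (h11 : S_hodge) {κ : Type} [Fintype κ] [DecidableEq κ]
    (hκ : Nat.card κ = 2) (β : MultilinearMap ℚ (fun _ : κ => X.H) ℚ)
    (hβ : HasWeight X.per (cxM β) 0) : Good 𝒲 𝒞 X κ (cxM β) := by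
  unfold Good
  rw [alt_cxM]
  refine Submodule.subset_span ⟨_, Gen.divisor hκ _ ?_, rfl⟩
  rw [← h11, ← alt_cxM]
  exact hw_alt hβ

/-- Forms all whose conjugates have weight zero are good on varieties of CM type. -/
theorem good_cm (h2 : S_good_lin) (h10 : S_L0) (h11 : S_hodge) {ι : Type} [Finite ι] (B : ι → AV)
    (hB : ∀ i, IsCM (B i) ∧ 𝒞 (B i)) (hX : IsIsogenousToProd X B) {κ : Type} [Fintype κ]
    [DecidableEq κ] (P : MultilinearMap ℚ (fun _ : κ => X.H) ℂ)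
    (hw : ∀ σ : ℂ ≃+* ℂ, HasWeight X.per (conjF σ P) 0) : Good 𝒲 𝒞 X κ P := by
  obtain ⟨n, z, lam, hdec⟩ := decomp P
  rw [hdec]
  refine Submodule.sum_mem (goodSub h2 𝒲 𝒞 X κ) fun j _ => Submodule.smul_mem _ _ ?_
  have hβ := h10 X _ P hw (lam j)
  change Good 𝒲 𝒞 X κ (cxM ((lam j).compMultilinearMap P))
  unfold Good
  rw [alt_cxM]
  refine Submodule.subset_span ⟨_, Gen.cm B hB hX _ ?_, rfl⟩
  rw [← h11, ← alt_cxM]
  exact hw_alt hβ

/-- The family with one member more. -/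
def addB {ι : Type} (B0 : AV) (B : ι → AV) : Option ι → AV
  | none => B0
  | some i => B i

theorem iso_single {A B0 : AV} {p : A.H →ₗ[ℚ] B0.H} (hp : IsHom A B0 p)
    (hb : Function.Bijective p) : IsIsogenousToProd A fun _ : Unit => B0 := by
  refine ⟨fun _ => p, fun _ => hp, fun v w hvw => hb.1 (congrFun hvw ()), fun f => ?_⟩
  obtain ⟨v, hv⟩ := hb.2 (f ())
  exact ⟨v, funext fun _ => hv⟩

theorem iso_add {A Y B0 : AV} {p : A.H →ₗ[ℚ] B0.H} (hp : IsHom A B0 p)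
    (hb : Function.Bijective p) {ι : Type} {B : ι → AV} (hY : IsIsogenousToProd Y B) :
    IsIsogenousToProd (A.prod Y) (addB B0 B) := by
  obtain ⟨q, hq, hq2⟩ := hY
  refine ⟨fun o => match o with
    | none => p.comp (LinearMap.fst ℚ A.H Y.H)
    | some i => (q i).comp (LinearMap.snd ℚ A.H Y.H), fun o => ?_, ?_, ?_⟩
  · cases o with
    | none => exact isHom_comp hp (isHom_fst A Y)
    | some i => exact isHom_comp (hq i) (isHom_snd A Y)
  · intro v w hvw
    have h1 : p v.1 = p w.1 := congrFun hvw none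
    have h2 : (fun i => q i v.2) = fun i => q i w.2 := funext fun i => congrFun hvw (some i)
    exact Prod.ext (hb.1 h1) (hq2.1 h2)
  · intro f
    obtain ⟨v, hv⟩ := hb.2 (f none)
    obtain ⟨w, hw⟩ := hq2.2 fun i => f (some i)
    refine ⟨((v, w) : A.H × Y.H), funext fun o => ?_⟩
    cases o with
    | none => exact hv
    | some i => exact congrFun hw i

/-- A nonempty list of coordinates is a pull-back from a variety of CM type. -/
theorem crd_list : ∀ (l : List (Fac 𝒲 𝒞 X)), l ≠ [] → cnt l = 0 → cn2 l = 0 →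
    ∃ (Y : AV) (ι : Type) (_ : Finite ι) (B : ι → AV) (_ : ∀ i, IsCM (B i) ∧ 𝒞 (B i))
      (_ : IsIsogenousToProd Y B) (U : X.H →ₗ[ℚ] Y.H) (_ : IsHom X Y U)
      (G : MultilinearMap ℚ (fun _ : V l => Y.H) ℂ), (∀ v, val l v = G fun k => U (v k)) ∧
      ∀ σ : ℂ ≃+* ℂ, HasWeight Y.per (conjF σ G) ((l.map fun f => f.wt σ).sum) := by
  intro l
  induction l with
  | nil => intro h; exact absurd rfl h
  | cons f l ih =>
    intro _ hc h2
    cases f with
    | bil β hβ =>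
      exfalso
      have e1 : cn2 (Fac.bil β hβ :: l) = 1 + cn2 l := rfl
      omega
    | det A n D h hh =>
      have e0 : cnt (Fac.det A n D h hh :: l) = (Fac.det A n D h hh : Fac 𝒲 𝒞 X).big + cnt l := rfl
      have hc' : cnt l = 0 := by omega
      have hbig : (Fac.det A n D h hh : Fac 𝒲 𝒞 X).big = 0 := by omega
      have hn : n = 1 ∧ InC 𝒞 A := by
        by_contra hcon
        have e1 : (Fac.det A n D h hh : Fac 𝒲 𝒞 X).big = 1 := if_neg hcon
        omega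
      clear hbig e0
      obtain ⟨hn1, B0, p, hB1, hB2, hp, hpb⟩ := hn
      subst hn1
      have h2' : cn2 l = 0 := by
        have e1 : cn2 (Fac.det A 1 D h hh :: l) = 0 + cn2 l := rfl
        omega
      have hh0 : ∀ v : Fin 1 → X.H, (fun k => h k (v k)) = fun k => h 0 (v k) := by
        intro v
        funext k
        rw [Subsingleton.elim k 0]
      by_cases hl : l = []
      · subst hl
        let e : Fin 1 ≃ Fin 1 ⊕ V ([] : List (Fac 𝒲 𝒞 X)) := (Equiv.sumEmpty (Fin 1) Empty).symm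
        refine ⟨A, Unit, inferInstance, fun _ => B0, fun _ => ⟨hB1, hB2⟩, iso_single hp hpb, h 0,
          hh 0, D.δ.toMultilinearMap.domDomCongr e, fun v => ?_, fun σ => ?_⟩
        · change D.δ (fun k => h k (v (Sum.inl k))) * 1 = _
          rw [mul_one, hh0 fun k => v (Sum.inl k)]
          rfl
        · have e1 : ((Fac.det A 1 D h hh :: ([] : List (Fac 𝒲 𝒞 X))).map fun f => f.wt σ).sum =
              D.s σ := by
            change D.s σ + 0 = D.s σ
            rw [add_zero]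
          rw [e1]
          exact Pool.Agent.Q210.D3.hw_reindex (D.wt σ) e
      · obtain ⟨Y, ι, hι, B, hB, hY, U, hU, G, hG, hGw⟩ := ih hl hc' h2'
        refine ⟨A.prod Y, Option ι, inferInstance, addB B0 B, fun o => ?_, iso_add hp hpb hY,
          (h 0).prod U, ?_,
          mulF (D.δ.toMultilinearMap.compLinearMap fun _ => LinearMap.fst ℚ A.H Y.H)
            (G.compLinearMap fun _ => LinearMap.snd ℚ A.H Y.H), fun v => ?_, fun σ => ?_⟩
        · cases o with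
          | none => exact ⟨hB1, hB2⟩
          | some i => exact hB i
        · obtain ⟨c1, hc1⟩ := hh 0
          obtain ⟨c2, hc2⟩ := hU
          refine ⟨c1.prod c2, fun x => ?_⟩
          exact Prod.ext (hc1 x) (hc2 x)
        · refine (val_cons _ _ v).trans ?_
          rw [hG]
          change D.δ (fun k => h k (v (Sum.inl k))) * _ = _
          rw [hh0 fun k => v (Sum.inl k)]
          rfl
        · have e1 : ((Fac.det A 1 D h hh :: l).map fun f => f.wt σ).sum =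
              D.s σ + (l.map fun f => f.wt σ).sum := rfl
          rw [e1]
          have h7 := conjF_mul σ
            (D.δ.toMultilinearMap.compLinearMap fun _ : Fin 1 =>
              (LinearMap.fst ℚ A.H Y.H : (A.prod Y).H →ₗ[ℚ] A.H))
            (G.compLinearMap fun _ : V l => (LinearMap.snd ℚ A.H Y.H : (A.prod Y).H →ₗ[ℚ] Y.H))
          have h8 := hw_mul
            (hw_comp (X := A.prod Y) (D.wt σ) (fun _ => LinearMap.fst ℚ A.H Y.H) fun _ => isHom_fst A Y)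
            (hw_comp (X := A.prod Y) (hGw σ) (fun _ => LinearMap.snd ℚ A.H Y.H)
              fun _ => isHom_snd A Y)
          exact Eq.mpr (congrArg (fun Z => HasWeight (A.prod Y).per Z
            (D.s σ + (l.map fun f => f.wt σ).sum)) h7) h8

theorem good_nil (h1 : S_good_alt) : Good 𝒲 𝒞 X (V ([] : List (Fac 𝒲 𝒞 X))) (val []) := by
  have _ : IsEmpty (V ([] : List (Fac 𝒲 𝒞 X))) := inferInstanceAs (IsEmpty Empty)
  let f : X.H [⋀^V ([] : List (Fac 𝒲 𝒞 X))]→ₗ[ℚ] ℚ := AlternatingMap.constOfIsEmpty ℚ X.H _ 1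
  have e1 : val ([] : List (Fac 𝒲 𝒞 X)) = (cx f).toMultilinearMap := by
    ext v
    change (1 : ℂ) = ((1 : ℚ) : ℂ)
    simp
  rw [e1, h1]
  exact Submodule.subset_span ⟨_, Gen.unit _, rfl⟩

theorem base (h1 : S_good_alt) (h2 : S_good_lin) (h3 : S_good_reindex) (h4 : S_good_mul)
    (h5 : S_good_pull) (h10 : S_L0) (h11 : S_hodge) :
    ∀ (n : ℕ) (l : List (Fac 𝒲 𝒞 X)), cn2 l = n → cnt l = 0 → LBal l →
      Good 𝒲 𝒞 X (V l) (val l) := by
  intro n
  induction n with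
  | zero =>
    intro l hn hc hb
    by_cases hl : l = []
    · subst hl; exact good_nil h1
    · obtain ⟨Y, ι, hι, B, hB, hY, U, hU, G, hG, hGw⟩ := crd_list l hl hc hn
      have hG0 : Good 𝒲 𝒞 Y (V l) G := by
        refine good_cm h2 h10 h11 B hB hY G fun σ => ?_
        have := hGw σ
        rwa [hb σ] at this
      have h6 := h5 𝒲 𝒞 X Y (V l) U hU G hG0
      exact good_eq h3 (Equiv.refl _) (fun v => hG v) h6
  | succ n ih =>
    intro l hn hc hb
    have h0 : ∃ f ∈ l, f.two ≠ 0 := by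
      by_contra hcon
      push Not at hcon
      have e1 : cn2 l = 0 := by
        unfold cn2
        rw [List.sum_eq_zero_iff]
        intro x hx
        obtain ⟨f, hf, rfl⟩ := List.mem_map.1 hx
        exact hcon f hf
      omega
    obtain ⟨f, hf, hf2⟩ := h0
    obtain ⟨l', hp⟩ := split_mem hf
    refine good_perm h3 hp.symm ?_
    have hc2 := hc
    rw [cnt_perm hp] at hc2
    have hn2 := hn
    rw [cn2_perm hp] at hn2
    have hb2 := hb.perm hp
    clear hp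
    cases f with
    | det A n D h hh => exact absurd rfl hf2
    | bil β hβ =>
      have hc' : cnt l' = 0 := by
        have e1 : cnt (Fac.bil β hβ :: l') = 0 + cnt l' := rfl
        omega
      have hn' : cn2 l' = n := by
        have e1 : cn2 (Fac.bil β hβ :: l') = 1 + cn2 l' := rfl
        omega
      have hb' : LBal l' := by
        intro σ
        have e1 := hb2 σ
        rw [List.map_cons, List.sum_cons] at e1
        have e2 : (Fac.bil β hβ : Fac 𝒲 𝒞 X).wt σ = 0 := rfl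
        rw [e2, zero_add] at e1
        exact e1
      have e3 := ih l' hn' hc' hb'
      exact h4 𝒲 𝒞 X (Fin 2) (V l') (cxM β) (val l') (good_two h11 (by simp) β hβ) e3

theorem bal_list
    (h𝒞 : ∀ (e M : ℕ) (B : AV), (e, M) ∈ 𝒲 → IsCM B → 2 * Module.finrank ℂ B.T = e → 𝒞 B)
    (h1 : S_good_alt) (h2 : S_good_lin) (h3 : S_good_reindex) (h4 : S_good_mul)
    (h5 : S_good_pull) (h6 : S_ins) (h7 : S_pol) (h8 : S_weil) (h9 : S_pow) (h10 : S_L0)
    (h11 : S_hodge) :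
    ∀ (c : ℕ) (X : AV) (l : List (Fac 𝒲 𝒞 X)), cnt l = c → LBal l →
      Good 𝒲 𝒞 X (V l) (val l) := by
  intro c
  induction c with
  | zero =>
    intro X l hc hb
    exact base h1 h2 h3 h4 h5 h10 h11 _ l rfl hc hb
  | succ c ih =>
    intro X l hc hb
    have h0 : ∃ f ∈ l, f.big ≠ 0 := by
      by_contra hcon
      push Not at hcon
      have e1 : cnt l = 0 := by
        unfold cnt
        rw [List.sum_eq_zero_iff]
        intro x hx
        obtain ⟨f, hf, rfl⟩ := List.mem_map.1 hx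
        exact hcon f hf
      omega
    obtain ⟨f, hf, hf3⟩ := h0
    obtain ⟨l', hp⟩ := split_mem hf
    refine good_perm h3 hp.symm ?_
    have hc2 := hc
    rw [cnt_perm hp] at hc2
    have hb2 := hb.perm hp
    clear hp
    cases f with
    | bil β hβ => exact absurd rfl hf3
    | det A n D h hh =>
      have hn : ¬(n = 1 ∧ InC 𝒞 A) := fun hn => hf3 (if_pos hn)
      have hc3 : cnt l' = c := by
        have e1 : cnt (Fac.det A n D h hh :: l') =
          (Fac.det A n D h hh : Fac 𝒲 𝒞 X).big + cnt l' := rfl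
        have e2 : (Fac.det A n D h hh : Fac 𝒲 𝒞 X).big = 1 := if_neg hn
        omega
      exact step h𝒞 h2 h3 h6 h7 h8 h9 D hn h hh l' hb2
        fun Y l'' e1 e2 => ih Y l'' (e1.trans hc3) e2

/-- JOB UBAL. -/
theorem bal (h1 : S_good_alt) (h2 : S_good_lin) (h3 : S_good_reindex) (h4 : S_good_mul)
    (h5 : S_good_pull) (h6 : S_ins) (h7 : S_pol) (h8 : S_weil) (h9 : S_pow) (h10 : S_L0)
    (h11 : S_hodge) : S_bal := by
  intro 𝒲 𝒞 h𝒞 X κ _ _ M hM F hF
  let φ : Fin M.m → Fac 𝒲 𝒞 X := fun j => .det (M.A j) (M.n j) (M.D j) (M.h j) (M.hh j)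
  let ψ : Fin M.p → Fac 𝒲 𝒞 X := fun q => .bil (M.β q) (M.hβ q)
  obtain ⟨e1, he1⟩ := val_ofFn φ
  obtain ⟨e2, he2⟩ := val_ofFn ψ
  obtain ⟨e3, he3⟩ := val_append (List.ofFn φ) (List.ofFn ψ)
  have hb : LBal (List.ofFn φ ++ List.ofFn ψ) := by
    intro σ
    rw [List.map_append, List.sum_append, List.map_ofFn, List.map_ofFn, List.sum_ofFn,
      List.sum_ofFn]
    have e4 : ∑ q, ((fun f : Fac 𝒲 𝒞 X => f.wt σ) ∘ ψ) q = 0 := Finset.sum_eq_zero fun q _ => rfl
    rw [e4, add_zero]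
    exact hM σ
  have hg := bal_list h𝒞 h1 h2 h3 h4 h5 h6 h7 h8 h9 h10 h11 _ X _ rfl hb
  let e4 : (Σ q, Fin (ψ q).N) ≃ Fin M.p × Fin 2 := Equiv.sigmaEquivProd (Fin M.p) (Fin 2)
  let e5 : V (List.ofFn φ ++ List.ofFn ψ) ≃ κ :=
    e3.symm.trans ((Equiv.sumCongr e1.symm (e2.symm.trans e4)).trans M.e)
  have e5l : ∀ (j : Fin M.m) (k : Fin (M.n j)), e5 (e3 (Sum.inl (e1 ⟨j, k⟩))) =
      M.e (Sum.inl ⟨j, k⟩) := by
    intro j k
    change M.e (Equiv.sumCongr e1.symm (e2.symm.trans e4) (e3.symm (e3 (Sum.inl (e1 ⟨j, k⟩))))) = _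
    rw [Equiv.symm_apply_apply]
    change M.e (Sum.inl (e1.symm (e1 ⟨j, k⟩))) = _
    rw [Equiv.symm_apply_apply]
    rfl
  have e5r : ∀ (q : Fin M.p) (a : Fin 2), e5 (e3 (Sum.inr (e2 ⟨q, a⟩))) =
      M.e (Sum.inr (q, a)) := by
    intro q a
    change M.e (Equiv.sumCongr e1.symm (e2.symm.trans e4) (e3.symm (e3 (Sum.inr (e2 ⟨q, a⟩))))) = _
    rw [Equiv.symm_apply_apply]
    change M.e (Sum.inr (e4 (e2.symm (e2 ⟨q, a⟩)))) = _
    rw [Equiv.symm_apply_apply]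
    rfl
  refine good_eq h3 e5 (fun v => ?_) hg
  rw [hF, he3, he1, he2]
  unfold Mon.val
  congr 1
  · refine Finset.prod_congr rfl fun j _ => ?_
    change _ = (M.D j).δ fun k => M.h j k (v (e5 (e3 (Sum.inl (e1 ⟨j, k⟩)))))
    congr 1
    funext k
    rw [e5l]
  · refine Finset.prod_congr rfl fun q _ => ?_
    change _ = ((M.β q fun a => v (e5 (e3 (Sum.inr (e2 ⟨q, a⟩)))) : ℚ) : ℂ)
    congr 2
    funext a
    rw [e5r]

end Pool.Agent.Q210.UW
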