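import Pool.Agent.Q210.UW.DetF
import Pool.Agent.Q237.D3C.Cwt

/-!
# Project UW, job UFAMC: abelian varieties of CM type
-/

set_option autoImplicit false

namespace Pool.Agent.Q210.UW

open Matrix Module Polynomial Pool.Agent.H204R3.CM Pool.Agent.H204R3.SP Pool.Agent.W437.HC
  Pool.Agent.W437.HD Pool.Agent.W437.HP Pool.Agent.W437.HR
open Pool.Agent.Q60.D3 (AV IsHom IsCM IsSimple IsIsogenousToProd cx mulF HasWeight conjF cxM ofZ
  Comm om om_smul_left om_smul_right om_swap)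
open Pool.Agent.Y4.K (Pol Pr mu Eqv Iso)
open Pool.Agent.Y4.H (LZ Ct)
open Pool.Agent.Q180.UW
open Pool.Agent.Q60.D3C (CZ)
open Pool.Agent.Q237.D3C (conj_sp iso_pos iso_neg)

variable {g : ℕ} {Z : Matrix (Fin g) (Fin g) ℂ}

/-- The column of a basis vector. -/
def cV (C : CZ Z) : Fin g ⊕ Fin g → (Fin g ⊕ Fin g → ℂ)
  | .inl k => C.u k
  | .inr k => C.v k

/-- The coordinate belonging to a basis vector. -/
noncomputable def cQ (C : CZ Z) : Fin g ⊕ Fin g → (Fin g ⊕ Fin g → ℂ)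
  | .inl k => Om g ℂ *ᵥ C.v k
  | .inr k => C.u k ᵥ* Om g ℂ

/-- The weights. -/
def cs (C : CZ Z) (r : Fin g ⊕ Fin g) (σ : ℂ ≃+* ℂ) : ℤ :=
  match r with
  | .inl k => C.c k σ
  | .inr k => -C.c k σ

theorem cQ_inl (C : CZ Z) (k : Fin g) (x : Fin g ⊕ Fin g → ℂ) :
    cQ C (.inl k) ⬝ᵥ x = om x (C.v k) := by
  rw [dotProduct_comm]
  rfl

theorem cQ_inr (C : CZ Z) (k : Fin g) (x : Fin g ⊕ Fin g → ℂ) :
    cQ C (.inr k) ⬝ᵥ x = om (C.u k) x := by
  change (C.u k ᵥ* Om g ℂ) ⬝ᵥ x = C.u k ⬝ᵥ (Om g ℂ *ᵥ x)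
  rw [← dotProduct_mulVec]

theorem map_refl (Z : Matrix (Fin g) (Fin g) ℂ) : (DZ Z).map (RingEquiv.refl ℂ) = DZ Z := by
  ext i j
  simp

theorem uu (C : CZ Z) (hZ : Zᵀ = Z) (k l : Fin g) : om (C.u k) (C.u l) = 0 := by
  have h : ∀ k, DZ Z *ᵥ C.u k = C.u k := by
    intro k
    have h1 := C.hu k (RingEquiv.refl ℂ)
    rw [map_refl, C.h1, Int.cast_one, one_smul] at h1
    exact h1
  exact iso_pos hZ (h k) (h l)

theorem vv (C : CZ Z) (hZ : Zᵀ = Z) (k l : Fin g) : om (C.v k) (C.v l) = 0 := by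
  have h : ∀ k, DZ Z *ᵥ C.v k = -C.v k := by
    intro k
    have h1 := C.hv k (RingEquiv.refl ℂ)
    rw [map_refl, C.h1, Int.cast_one, neg_one_smul] at h1
    exact h1
  exact iso_neg hZ (h k) (h l)

theorem cQV (C : CZ Z) (hZ : Zᵀ = Z) (r s : Fin g ⊕ Fin g) :
    cQ C r ⬝ᵥ cV C s = if r = s then 1 else 0 := by
  rcases r with k | k <;> rcases s with l | l
  · rw [cQ_inl]
    change om (C.u l) (C.v k) = _
    rw [C.dual]
    by_cases h : l = k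
    · rw [if_pos h, if_pos (by rw [h])]
    · rw [if_neg h, if_neg (fun h' => h (Sum.inl.inj h').symm)]
  · rw [cQ_inl]
    change om (C.v l) (C.v k) = _
    rw [vv C hZ, if_neg (by simp)]
  · rw [cQ_inr]
    change om (C.u k) (C.u l) = _
    rw [uu C hZ, if_neg (by simp)]
  · rw [cQ_inr]
    change om (C.u k) (C.v l) = _
    rw [C.dual]
    by_cases h : k = l
    · rw [if_pos h, if_pos (by rw [h])]
    · rw [if_neg h, if_neg (fun h' => h (Sum.inr.inj h'))]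

/-- The matrices. -/
noncomputable def qM (C : CZ Z) (r : Fin g ⊕ Fin g) : Matrix (Fin 1) (Fin g ⊕ Fin g) ℂ :=
  Matrix.of fun _ j => cQ C r j

/-- The matrices. -/
def vM (C : CZ Z) (r : Fin g ⊕ Fin g) : Matrix (Fin g ⊕ Fin g) (Fin 1) ℂ :=
  Matrix.of fun i _ => cV C r i

theorem qv (C : CZ Z) (hZ : Zᵀ = Z) (r : Fin g ⊕ Fin g) : qM C r * vM C r = 1 := by
  ext a b
  have h1 : (qM C r * vM C r) a b = cQ C r ⬝ᵥ cV C r := by
    rw [Matrix.mul_apply]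
    rfl
  rw [h1, cQV C hZ, if_pos rfl, Subsingleton.elim a b, Matrix.one_apply_eq]

theorem vq_tot (C : CZ Z) (hZ : Zᵀ = Z) : ∑ r, vM C r * qM C r = 1 := by
  let W : Matrix (Fin g ⊕ Fin g) (Fin g ⊕ Fin g) ℂ := Matrix.of fun i r => cV C r i
  let R : Matrix (Fin g ⊕ Fin g) (Fin g ⊕ Fin g) ℂ := Matrix.of fun r j => cQ C r j
  have h1 : R * W = 1 := by
    ext r s
    have h2 : (R * W) r s = cQ C r ⬝ᵥ cV C s := by
      rw [Matrix.mul_apply]
      rfl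
    rw [h2, cQV C hZ, Matrix.one_apply]
  have h2 : W * R = 1 := mul_eq_one_comm.1 h1
  rw [← h2]
  ext i j
  rw [Matrix.sum_apply, Matrix.mul_apply]
  refine Finset.sum_congr rfl fun r _ => ?_
  rw [Matrix.mul_apply, Fin.sum_univ_one]
  rfl

theorem D_vM (C : CZ Z) (r : Fin g ⊕ Fin g) (σ : ℂ ≃+* ℂ) :
    (DZ Z).map σ * vM C r = ((cs C r σ : ℤ) : ℂ) • vM C r := by
  ext i a
  have h1 : ((DZ Z).map σ * vM C r) i a = ((DZ Z).map σ *ᵥ cV C r) i := by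
    rw [Matrix.mul_apply]
    rfl
  rw [h1, Matrix.smul_apply, smul_eq_mul]
  rcases r with k | k
  · change ((DZ Z).map σ *ᵥ C.u k) i = ((C.c k σ : ℤ) : ℂ) * C.u k i
    rw [C.hu]
    rfl
  · change ((DZ Z).map σ *ᵥ C.v k) i = ((-C.c k σ : ℤ) : ℂ) * C.v k i
    rw [C.hv]
    push_cast
    rfl

theorem qM_D (C : CZ Z) (hZ : Zᵀ = Z) (r : Fin g ⊕ Fin g) (σ : ℂ ≃+* ℂ) :
    qM C r * (DZ Z).map σ = ((cs C r σ : ℤ) : ℂ) • qM C r := by
  refine Matrix.ext_of_mulVec_single fun j => ?_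
  rw [← mulVec_mulVec, smul_mulVec]
  funext a
  obtain ⟨x, hx⟩ : ∃ x : Fin g ⊕ Fin g → ℂ, x = Pi.single j 1 := ⟨_, rfl⟩
  rw [← hx, Pi.smul_apply, smul_eq_mul]
  change cQ C r ⬝ᵥ ((DZ Z).map σ *ᵥ x) = _ * (cQ C r ⬝ᵥ x)
  rcases r with k | k
  · rw [cQ_inl, cQ_inl, conj_sp hZ, C.hv, om_smul_right]
    change _ = ((C.c k σ : ℤ) : ℂ) * _
    ring
  · rw [cQ_inr, cQ_inr]
    have h1 := conj_sp hZ σ (C.u k) x
    rw [C.hu, om_smul_left] at h1
    change _ = ((-C.c k σ : ℤ) : ℂ) * _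
    push_cast
    linear_combination h1

theorem conj_conj (σ τ : ℂ ≃+* ℂ) : ((DZ Z).map σ).map τ = (DZ Z).map (σ.trans τ) := by
  ext i j
  simp

theorem wtC (hZ : Zᵀ = Z) (hpos : (imM Z).PosDef) (C : CZ Z) (r : Fin g ⊕ Fin g) (σ : ℂ ≃+* ℂ) :
    HasWeight (perOne Z) (conjF σ (dF (qM C r)).toMultilinearMap) (cs C r σ.symm) := by
  rw [conj_dF]
  refine dF_wt hpos (T := ((cs C r σ.symm : ℤ) : ℂ) • (1 : Matrix (Fin 1) (Fin 1) ℂ)) ?_ ?_
  · have h1 := congrArg (fun M => M.map (σ : ℂ →+* ℂ)) (qM_D C hZ r σ.symm)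
    simp only [Matrix.map_mul] at h1
    have h2 : ((DZ Z).map σ.symm).map (σ : ℂ →+* ℂ) = DZ Z := by
      ext i j
      simp
    rw [h2] at h1
    rw [h1, Matrix.smul_mul, Matrix.one_mul]
    ext i j
    simp
  · rw [Matrix.trace_smul, Matrix.trace_one, Fintype.card_fin, Nat.cast_one, smul_eq_mul, mul_one]

/-- The item. -/
noncomputable def itmC (𝒲 : Set (ℕ × ℕ)) (𝒞 : AV → Prop) (hZ : Zᵀ = Z) (hpos : (imM Z).PosDef)
    (C : CZ Z) (hC : InC 𝒞 (ofZ Z hZ hpos)) (r : Fin g ⊕ Fin g) : Itm 𝒲 𝒞 (ofZ Z hZ hpos) 1 where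
  δ := dF (qM C r)
  s := fun σ => cs C r σ.symm
  wt := wtC hZ hpos C r
  kind := Or.inl ⟨rfl, hC⟩

/-- JOB UFAMC. -/
theorem famc : S_famc := by
  intro 𝒲 𝒞 g Z hZ hpos hcomm hC
  obtain ⟨C⟩ := Pool.Agent.Q237.D3C.cz g Z hZ hpos hcomm
  exact ⟨{
    R := Fin g ⊕ Fin g
    n := fun _ => 1
    Q := qM C
    V := vM C
    QV := qv C hZ
    tot := vq_tot C hZ
    mem := fun r => ct_of_conj fun σ => by
      rw [Matrix.mul_assoc, qM_D C hZ, Matrix.mul_smul, ← Matrix.mul_assoc, D_vM, Matrix.smul_mul]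
    prim := fun r c _ => by
      have h1 : qM C r * c * vM C r = ((qM C r * c * vM C r) 0 0) • (1 : Matrix (Fin 1) (Fin 1) ℂ) := by
        ext a b
        rw [Subsingleton.elim a 0, Subsingleton.elim b 0, Matrix.smul_apply, Matrix.one_apply_eq,
          smul_eq_mul, mul_one]
      refine ⟨(qM C r * c * vM C r) 0 0, ?_⟩
      calc vM C r * qM C r * c * (vM C r * qM C r) = vM C r * (qM C r * c * vM C r) * qM C r := by
            simp only [Matrix.mul_assoc]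
        _ = _ := by
            rw [h1]
            simp
    L := itmC 𝒲 𝒞 hZ hpos C hC
    hL := fun r x => rfl
    hs := fun r σ => by
      change ((cs C r σ.symm : ℤ) : ℂ) = trace ((DZ Z).map (σ.symm : ℂ →+* ℂ) * (vM C r * qM C r))
      have h1 : (DZ Z).map (σ.symm : ℂ →+* ℂ) * (vM C r * qM C r) =
          ((cs C r σ.symm : ℤ) : ℂ) • (vM C r * qM C r) := by
        rw [← Matrix.mul_assoc, ← Matrix.smul_mul, ← D_vM C r σ.symm]
        rfl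
      rw [h1, Matrix.trace_smul, Matrix.trace_mul_comm, qv C hZ, Matrix.trace_one, Fintype.card_fin,
        Nat.cast_one, smul_eq_mul, mul_one]
    num := fun r => Or.inl rfl }⟩

end Pool.Agent.Q210.UW
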