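import Pool.Agent.Q210.UW.DetF

/-!
# Project UW, job UFAMU: abelian varieties of unitary type
-/

set_option autoImplicit false

namespace Pool.Agent.Q210.UW

open Matrix Module Polynomial Pool.Agent.H204R3.CM Pool.Agent.H204R3.SP Pool.Agent.W437.HC
  Pool.Agent.W437.HD Pool.Agent.W437.HP Pool.Agent.W437.HR
open Pool.Agent.Q60.D3 (AV IsHom IsCM IsSimple IsIsogenousToProd cx mulF HasWeight conjF cxM ofZ
  Comm hom_of_comm)
open Pool.Agent.Y4.K (Pol Pr mu Eqv Iso)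
open Pool.Agent.Y4.H (LZ Ct)
open Pool.Agent.Q180.UW

/-- The automorphisms of the field of complex numbers act transitively on the roots of an
irreducible polynomial. -/
theorem root_trans {P : ℚ[X]} (hP : Irreducible P) {μ ν : ℂ} (hμ : aeval μ P = 0)
    (hν : aeval ν P = 0) : ∃ σ : ℂ ≃+* ℂ, σ μ = ν := by
  have hP0 : P ≠ 0 := hP.ne_zero
  have hspl : (P.map (algebraMap ℚ ℂ)).Splits := IsAlgClosed.splits _
  have hsf : P.IsSplittingField ℚ (IntermediateField.adjoin ℚ (P.rootSet ℂ)) :=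
    IntermediateField.adjoin_rootSet_isSplittingField hspl
  let L := IntermediateField.adjoin ℚ (P.rootSet ℂ)
  have _ : Normal ℚ L := Normal.of_isSplittingField P
  have hμL : μ ∈ L := by
    apply IntermediateField.subset_adjoin
    rw [Polynomial.mem_rootSet]
    exact ⟨hP0, hμ⟩
  have hνL : ν ∈ L := by
    apply IntermediateField.subset_adjoin
    rw [Polynomial.mem_rootSet]
    exact ⟨hP0, hν⟩
  have key : ∀ (x : ℂ) (hx : x ∈ L), aeval x P = 0 →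
      P * Polynomial.C P.leadingCoeff⁻¹ = minpoly ℚ (⟨x, hx⟩ : L) := by
    intro x hx h0
    refine minpoly.eq_of_irreducible hP ?_
    apply Subtype.ext
    have h1 : ((aeval (⟨x, hx⟩ : L) P : L) : ℂ) = aeval x P := by
      have h2 := Polynomial.aeval_algHom_apply (L.val) (⟨x, hx⟩ : L) P
      exact h2.symm
    rw [h1, h0]
    rfl
  have h1 : minpoly ℚ (⟨ν, hνL⟩ : L) = minpoly ℚ (⟨μ, hμL⟩ : L) :=
    (key ν hνL hν).symm.trans (key μ hμL hμ)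
  obtain ⟨f, hf⟩ := (Normal.minpoly_eq_iff_mem_orbit (F := ℚ) (E := L)).1 h1
  obtain ⟨σ, hσ⟩ := Pool.Agent.H977R3.CM.exists_aut (L.val : L →+* ℂ) (f : L ≃+* L)
  refine ⟨σ, ?_⟩
  have h2 := hσ ⟨μ, hμL⟩
  have h3 : (f : L ≃+* L) ⟨μ, hμL⟩ = ⟨ν, hνL⟩ := hf
  rw [h3] at h2
  exact h2

theorem aeval_aut (σ : ℂ ≃+* ℂ) (μ : ℂ) (P : ℚ[X]) : aeval (σ μ) P = σ (aeval μ P) :=
  Polynomial.aeval_algHom_apply ((σ : ℂ →+* ℂ).toRatAlgHom) μ P

variable {g n : ℕ} {Z : Matrix (Fin g) (Fin g) ℂ}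

/-- The properties of the matrices of `S_lin`. -/
def HQV (P : ℚ[X]) (φ : Matrix (Fin g ⊕ Fin g) (Fin g ⊕ Fin g) ℚ)
    (Q : ℂ → Matrix (Fin n) (Fin g ⊕ Fin g) ℂ) (V : ℂ → Matrix (Fin g ⊕ Fin g) (Fin n) ℂ) : Prop :=
  ∀ μ, aeval μ P = 0 → Q μ * V μ = 1 ∧
    (∀ ν, aeval ν P = 0 → ν ≠ μ → Q μ * V ν = 0) ∧
    Q μ * cK ℂ φ = μ • Q μ ∧ cK ℂ φ * V μ = μ • V μ ∧
    ∀ σ : ℂ ≃+* ℂ, (Q μ).map (σ : ℂ →+* ℂ) = Q (σ μ) ∧ (V μ).map (σ : ℂ →+* ℂ) = V (σ μ)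

section

variable {P : ℚ[X]} {φ : Matrix (Fin g ⊕ Fin g) (Fin g ⊕ Fin g) ℚ}
  {Q : ℂ → Matrix (Fin n) (Fin g ⊕ Fin g) ℂ} {V : ℂ → Matrix (Fin g ⊕ Fin g) (Fin n) ℂ}
  (H : HQV P φ Q V) (htot : ∑ μ ∈ (P.aroots ℂ).toFinset, V μ * Q μ = 1)
include H

theorem cross {X : Matrix (Fin g ⊕ Fin g) (Fin g ⊕ Fin g) ℂ} (hX : X * cK ℂ φ = cK ℂ φ * X)
    {μ ν : ℂ} (hμ : aeval μ P = 0) (hν : aeval ν P = 0) (hne : ν ≠ μ) : Q ν * X * V μ = 0 := by
  have h1 : Q ν * X * (cK ℂ φ * V μ) = μ • (Q ν * X * V μ) := by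
    rw [(H μ hμ).2.2.2.1, Matrix.mul_smul]
  have h2 : Q ν * X * (cK ℂ φ * V μ) = ν • (Q ν * X * V μ) := by
    calc Q ν * X * (cK ℂ φ * V μ) = Q ν * (X * cK ℂ φ) * V μ := by simp only [Matrix.mul_assoc]
      _ = (Q ν * cK ℂ φ) * X * V μ := by rw [hX]; simp only [Matrix.mul_assoc]
      _ = _ := by rw [(H ν hν).2.2.1, Matrix.smul_mul, Matrix.smul_mul]
  have h3 : (ν - μ) • (Q ν * X * V μ) = 0 := by
    rw [sub_smul, ← h1, ← h2, sub_self]
  exact (smul_eq_zero.1 h3).resolve_left (sub_ne_zero.2 hne)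

include htot

theorem Q_X {X : Matrix (Fin g ⊕ Fin g) (Fin g ⊕ Fin g) ℂ} (hX : X * cK ℂ φ = cK ℂ φ * X)
    {μ : ℂ} (hμ : aeval μ P = 0) (hP : P ≠ 0) : Q μ * X = (Q μ * X * V μ) * Q μ := by
  calc Q μ * X = Q μ * X * ∑ ν ∈ (P.aroots ℂ).toFinset, V ν * Q ν := by rw [htot, Matrix.mul_one]
    _ = ∑ ν ∈ (P.aroots ℂ).toFinset, (Q μ * X * V ν) * Q ν := by
        rw [Matrix.mul_sum]
        exact Finset.sum_congr rfl fun ν _ => (Matrix.mul_assoc _ _ _).symm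
    _ = (Q μ * X * V μ) * Q μ := by
        refine Finset.sum_eq_single μ (fun ν hν hne => ?_) (fun h => ?_)
        · rw [Multiset.mem_toFinset, Polynomial.mem_aroots] at hν
          rw [cross H hX hν.2 hμ hne.symm, Matrix.zero_mul]
        · exact absurd (Multiset.mem_toFinset.2 (Polynomial.mem_aroots.2 ⟨hP, hμ⟩)) h

theorem X_V {X : Matrix (Fin g ⊕ Fin g) (Fin g ⊕ Fin g) ℂ} (hX : X * cK ℂ φ = cK ℂ φ * X)
    {μ : ℂ} (hμ : aeval μ P = 0) (hP : P ≠ 0) : X * V μ = V μ * (Q μ * X * V μ) := by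
  calc X * V μ = (∑ ν ∈ (P.aroots ℂ).toFinset, V ν * Q ν) * (X * V μ) := by rw [htot, Matrix.one_mul]
    _ = ∑ ν ∈ (P.aroots ℂ).toFinset, V ν * (Q ν * X * V μ) := by
        rw [Matrix.sum_mul]
        exact Finset.sum_congr rfl fun ν _ => by simp only [Matrix.mul_assoc]
    _ = V μ * (Q μ * X * V μ) := by
        refine Finset.sum_eq_single μ (fun ν hν hne => ?_) (fun h => ?_)
        · rw [Multiset.mem_toFinset, Polynomial.mem_aroots] at hν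
          rw [cross H hX hμ hν.2 hne, Matrix.mul_zero]
        · exact absurd (Multiset.mem_toFinset.2 (Polynomial.mem_aroots.2 ⟨hP, hμ⟩)) h

theorem VQ_comm {X : Matrix (Fin g ⊕ Fin g) (Fin g ⊕ Fin g) ℂ} (hX : X * cK ℂ φ = cK ℂ φ * X)
    {μ : ℂ} (hμ : aeval μ P = 0) (hP : P ≠ 0) : V μ * Q μ * X = X * (V μ * Q μ) := by
  rw [Matrix.mul_assoc, Q_X H htot hX hμ hP, ← Matrix.mul_assoc, ← X_V H htot hX hμ hP,
    Matrix.mul_assoc]

theorem VQ_ct (hD : cK ℂ φ * DZ Z = DZ Z * cK ℂ φ) {μ : ℂ} (hμ : aeval μ P = 0) (hP : P ≠ 0) :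
    Ct Z (V μ * Q μ) := by
  refine ct_of_conj fun σ => VQ_comm H htot ?_ hμ hP
  have h1 := congrArg (fun M => M.map σ) hD
  simp only [Matrix.map_mul, Pool.Agent.Q60.D3.cK_map] at h1
  exact h1.symm

omit htot

theorem Q_poly {μ : ℂ} (hμ : aeval μ P = 0) (q : ℚ[X]) : Q μ * cK ℂ (aeval φ q) = aeval μ q • Q μ := by
  induction q using Polynomial.induction_on' with
  | add p q hp hq =>
    have h1 : cK ℂ (aeval φ p + aeval φ q) = cK ℂ (aeval φ p) + cK ℂ (aeval φ q) := by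
      ext i j
      simp [cK]
    rw [map_add, map_add, h1, Matrix.mul_add, hp, hq, add_smul]
  | monomial k a =>
    have h1 : ∀ k : ℕ, Q μ * cK ℂ (φ ^ k) = μ ^ k • Q μ := by
      intro k
      induction k with
      | zero => rw [pow_zero, cK_one, Matrix.mul_one, pow_zero, one_smul]
      | succ k ih =>
        rw [pow_succ, cK_mul, ← Matrix.mul_assoc, ih, Matrix.smul_mul, (H μ hμ).2.2.1, smul_smul,
          pow_succ]
    have h2 : cK ℂ (aeval φ (monomial k a)) = (a : ℂ) • cK ℂ (φ ^ k) := by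
      rw [Polynomial.aeval_monomial, Algebra.algebraMap_eq_smul_one, Matrix.smul_mul, Matrix.one_mul]
      ext i j
      simp [cK]
    rw [h2, Matrix.mul_smul, h1, smul_smul, Polynomial.aeval_monomial]
    rfl

theorem prim_aux (hcent : ∀ u : Matrix (Fin g ⊕ Fin g) (Fin g ⊕ Fin g) ℚ,
      cK ℂ u * DZ Z = DZ Z * cK ℂ u → u * φ = φ * u → ∃ q : ℚ[X], u = aeval φ q)
    {μ : ℂ} (hμ : aeval μ P = 0) (X : Matrix (Fin g ⊕ Fin g) (Fin g ⊕ Fin g) ℂ) (hX : Ct Z X)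
    (hXφ : X * cK ℂ φ = cK ℂ φ * X) : ∃ a : ℂ, V μ * Q μ * X = a • (V μ * Q μ) := by
  let S : Submodule ℂ (Matrix (Fin g ⊕ Fin g) (Fin g ⊕ Fin g) ℂ) :=
    { carrier := {X | Ct Z X ∧ X * cK ℂ φ = cK ℂ φ * X}
      zero_mem' := ⟨fun Y _ => by rw [Matrix.zero_mul, Matrix.mul_zero],
        by rw [Matrix.zero_mul, Matrix.mul_zero]⟩
      add_mem' := fun {a b} ha hb => ⟨fun Y hY => by
        rw [Matrix.add_mul, Matrix.mul_add, ha.1 Y hY, hb.1 Y hY],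
        by rw [Matrix.add_mul, Matrix.mul_add, ha.2, hb.2]⟩
      smul_mem' := fun a X hX => ⟨fun Y hY => by
        rw [Matrix.smul_mul, Matrix.mul_smul, hX.1 Y hY],
        by rw [Matrix.smul_mul, Matrix.mul_smul, hX.2]⟩ }
  refine Pool.Agent.W548.Odd.rational_induction S (p := fun X => ∃ a : ℂ, V μ * Q μ * X = a • (V μ * Q μ))
    (fun σ X hX => ⟨?_, ?_⟩) (fun u hu => ?_) ⟨0, ?_⟩ (fun X Y hX hY => ?_) (fun a X hX => ?_) X
    ⟨hX, hXφ⟩
  · exact Pool.Agent.W548.Odd.InCm.aut hX.1 σ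
  · have h1 := congrArg (fun M => M.map σ) hX.2
    simp only [Matrix.map_mul, Pool.Agent.Q60.D3.cK_map] at h1
    exact h1
  · have h1 : cK ℂ u * DZ Z = DZ Z * cK ℂ u := by
      have h2 := ct_conj hu.1 (RingEquiv.refl ℂ)
      have h3 : (DZ Z).map (RingEquiv.refl ℂ) = DZ Z := by
        ext i j
        simp
      rw [h3] at h2
      exact h2
    have h2 : u * φ = φ * u := by
      have h3 : cK ℂ (u * φ) = cK ℂ (φ * u) := by
        rw [cK_mul, cK_mul]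
        exact hu.2
      ext i j
      have h4 := congrFun (congrFun h3 i) j
      exact Rat.cast_injective (α := ℂ) h4
    obtain ⟨q, hq⟩ := hcent u h1 h2
    refine ⟨aeval μ q, ?_⟩
    change V μ * Q μ * cK ℂ u = _
    rw [hq, Matrix.mul_assoc, Q_poly H hμ, Matrix.mul_smul]
  · rw [Matrix.mul_zero, zero_smul]
  · obtain ⟨a, ha⟩ := hX
    obtain ⟨b, hb⟩ := hY
    exact ⟨a + b, by rw [Matrix.mul_add, ha, hb, add_smul]⟩
  · obtain ⟨b, hb⟩ := hX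
    exact ⟨a * b, by rw [Matrix.mul_smul, hb, smul_smul]⟩

include htot

theorem prim (hD : cK ℂ φ * DZ Z = DZ Z * cK ℂ φ)
    (hcent : ∀ u : Matrix (Fin g ⊕ Fin g) (Fin g ⊕ Fin g) ℚ,
      cK ℂ u * DZ Z = DZ Z * cK ℂ u → u * φ = φ * u → ∃ q : ℚ[X], u = aeval φ q)
    {μ : ℂ} (hμ : aeval μ P = 0) (hP : P ≠ 0) (c : Matrix (Fin g ⊕ Fin g) (Fin g ⊕ Fin g) ℂ)
    (hc : Ct Z c) : ∃ a : ℂ, V μ * Q μ * c * (V μ * Q μ) = a • (V μ * Q μ) := by
  have h1 := VQ_ct H htot hD hμ hP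
  obtain ⟨h2, -, h3, h4, -⟩ := H μ hμ
  have h5 : V μ * Q μ * c * (V μ * Q μ) * cK ℂ φ = cK ℂ φ * (V μ * Q μ * c * (V μ * Q μ)) := by
    have h6 : V μ * Q μ * c * (V μ * Q μ) * cK ℂ φ = μ • (V μ * Q μ * c * (V μ * Q μ)) := by
      calc V μ * Q μ * c * (V μ * Q μ) * cK ℂ φ = V μ * Q μ * c * (V μ * (Q μ * cK ℂ φ)) := by
            simp only [Matrix.mul_assoc]
        _ = _ := by rw [h3, Matrix.mul_smul, Matrix.mul_smul]
    have h7 : cK ℂ φ * (V μ * Q μ * c * (V μ * Q μ)) = μ • (V μ * Q μ * c * (V μ * Q μ)) := by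
      calc cK ℂ φ * (V μ * Q μ * c * (V μ * Q μ)) = (cK ℂ φ * V μ) * Q μ * c * (V μ * Q μ) := by
            simp only [Matrix.mul_assoc]
        _ = _ := by rw [h4, Matrix.smul_mul, Matrix.smul_mul, Matrix.smul_mul]
    rw [h6, h7]
  obtain ⟨a, ha⟩ := prim_aux H hcent hμ _ ((h1.mul hc).mul h1) h5
  refine ⟨a, ?_⟩
  rw [← ha]
  have h6 : V μ * Q μ * (V μ * Q μ) = V μ * Q μ := by
    rw [Matrix.mul_assoc, ← Matrix.mul_assoc (Q μ), h2, Matrix.one_mul]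
  calc V μ * Q μ * c * (V μ * Q μ) = (V μ * Q μ * (V μ * Q μ)) * c * (V μ * Q μ) := by rw [h6]
    _ = _ := by
        rw [Matrix.mul_assoc (V μ * Q μ) (V μ * Q μ) c, Matrix.mul_assoc (V μ * Q μ)]

theorem wtU (hpos : (imM Z).PosDef) (hD : cK ℂ φ * DZ Z = DZ Z * cK ℂ φ) (hP : P ≠ 0)
    {m : ℂ → ℕ} (hm : ∀ μ, aeval μ P = 0 → trace (DZ Z * (V μ * Q μ)) = 2 * (m μ : ℂ) - n)
    {μ : ℂ} (hμ : aeval μ P = 0) (σ : ℂ ≃+* ℂ) :
    HasWeight (perOne Z) (conjF σ (dF (Q μ)).toMultilinearMap) (2 * (m (σ μ) : ℤ) - n) := by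
  have hσ : aeval (σ μ) P = 0 := by rw [aeval_aut, hμ, map_zero]
  rw [conj_dF, ((H μ hμ).2.2.2.2 σ).1]
  refine dF_wt hpos (T := Q (σ μ) * DZ Z * V (σ μ)) (Q_X H htot hD.symm hσ hP) ?_
  rw [Matrix.mul_assoc, Matrix.trace_mul_comm, Matrix.mul_assoc, hm _ hσ]
  push_cast
  rfl

omit htot

theorem tr_conj {m : ℂ → ℕ}
    (hm : ∀ μ, aeval μ P = 0 → trace (DZ Z * (V μ * Q μ)) = 2 * (m μ : ℂ) - n)
    {μ : ℂ} (hμ : aeval μ P = 0) (σ : ℂ ≃+* ℂ) :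
    ((2 * (m (σ μ) : ℤ) - n : ℤ) : ℂ) = trace ((DZ Z).map (σ.symm : ℂ →+* ℂ) * (V μ * Q μ)) := by
  have hσ : aeval (σ μ) P = 0 := by rw [aeval_aut, hμ, map_zero]
  have h1 := (H (σ μ) hσ).2.2.2.2 σ.symm
  rw [RingEquiv.symm_apply_apply] at h1
  have h2 : (DZ Z).map (σ.symm : ℂ →+* ℂ) * (V μ * Q μ) =
      (DZ Z * (V (σ μ) * Q (σ μ))).map (σ.symm : ℂ →+* ℂ) := by
    rw [Matrix.map_mul, Matrix.map_mul, h1.1, h1.2]
  rw [h2, trace_map, hm _ hσ, map_sub, map_mul, map_ofNat, map_natCast, map_natCast]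
  push_cast
  rfl

end

theorem mult_transport {T T' : Type} [AddCommGroup T] [Module ℂ T] [AddCommGroup T'] [Module ℂ T']
    (e : T ≃ₗ[ℂ] T') (C : T →ₗ[ℂ] T) (μ : ℂ) :
    mult ((e.toLinearMap ∘ₗ C) ∘ₗ e.symm.toLinearMap) μ = mult C μ := by
  unfold mult
  have h1 : LinearMap.ker ((e.toLinearMap ∘ₗ C) ∘ₗ e.symm.toLinearMap -
      μ • (LinearMap.id : T' →ₗ[ℂ] T')) =
      (LinearMap.ker (C - μ • (LinearMap.id : T →ₗ[ℂ] T))).map (e : T →ₗ[ℂ] T') := by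
    ext x
    rw [Submodule.mem_map]
    constructor
    · intro hx
      refine ⟨e.symm x, ?_, e.apply_symm_apply x⟩
      rw [LinearMap.mem_ker] at hx ⊢
      apply e.injective
      rw [map_zero, ← hx]
      simp
    · rintro ⟨y, hy, rfl⟩
      rw [LinearMap.mem_ker] at hy ⊢
      have h2 := congrArg e hy
      rw [map_zero] at h2
      rw [← h2]
      simp
  rw [h1]
  exact (e.submoduleMap _).finrank_eq.symm

/-- JOB UFAMU. -/
theorem famu (h1 : S_lin) (h2 : S_mul) : S_famu := by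
  intro 𝒲 𝒞 A g Z e' C' hZ hpos hper e M hW hU
  obtain ⟨P, φ, C, n, hP, hC, hφP, hdim, hn3, hcent, hm, μ₀, hμ₀, hcop⟩ := hU
  have hY : IsUnit (imM Z).det := hpos.isUnit.map Matrix.detMonoidHom
  have hP0 : P ≠ 0 := hP.1.ne_zero
  let N : Module.End ℚ A.H ≃ₐ[ℚ] Matrix (Fin g ⊕ Fin g) (Fin g ⊕ Fin g) ℚ :=
    (e'.conjAlgEquiv ℚ).trans LinearMap.toMatrixAlgEquiv'
  have hN : ∀ (s : Module.End ℚ A.H) (v : Fin g ⊕ Fin g → ℚ), N s *ᵥ v = e' (s (e'.symm v)) := by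
    intro s v
    have h3 : Matrix.toLinAlgEquiv' (N s) v = e' (s (e'.symm v)) := by
      change Matrix.toLinAlgEquiv' (LinearMap.toMatrixAlgEquiv' (e'.conjAlgEquiv ℚ s)) v = _
      rw [Matrix.toLinAlgEquiv'_toMatrixAlgEquiv']
      rfl
    exact h3
  have hNs : ∀ (u : Matrix (Fin g ⊕ Fin g) (Fin g ⊕ Fin g) ℚ) (w : A.H),
      (N.symm u) w = e'.symm (u *ᵥ e' w) := by
    intro u w
    have h3 := hN (N.symm u) (e' w)
    rw [AlgEquiv.apply_symm_apply, LinearEquiv.symm_apply_apply] at h3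
    rw [h3, LinearEquiv.symm_apply_apply]
  let Cm : (Fin g → ℂ) →ₗ[ℂ] (Fin g → ℂ) := (C'.toLinearMap ∘ₗ C) ∘ₗ C'.symm.toLinearMap
  have hper' : ∀ w, C'.symm (perOne Z w) = A.per (e'.symm w) := by
    intro w
    rw [LinearEquiv.symm_apply_eq, hper, LinearEquiv.apply_symm_apply]
  have hCm : ∀ w, Cm (perOne Z w) = perOne Z (N φ *ᵥ w) := by
    intro w
    change C' (C (C'.symm (perOne Z w))) = _
    rw [hper', hC, hper, hN]
  have hmult : ∀ μ, mult Cm μ = mult C μ := fun μ => mult_transport C' C μ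
  have hg : Module.finrank ℂ A.T = g := by
    rw [C'.finrank_eq, Module.finrank_fin_fun]
  have hcard : Fintype.card (Fin g ⊕ Fin g) = P.natDegree * n := by
    rw [Fintype.card_sum, Fintype.card_fin, hP.2.1, ← hdim, hg]
    ring
  have hNP : aeval (N φ) P = 0 := by
    rw [Polynomial.aeval_algHom_apply N φ P, hφP, map_zero]
  obtain ⟨Q, V, hQV, htot⟩ := h1 (Fin g ⊕ Fin g) P (N φ) n hP.1 hNP hcard
  have hM := h2 g Z hZ hpos P (N φ) n Cm Q V hP.1 hNP hCm hQV htot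
  have H : HQV P (N φ) Q V := hQV
  have hD : cK ℂ (N φ) * DZ Z = DZ Z * cK ℂ (N φ) := by
    refine Pool.Agent.W437.HQ.endo_comm hY (ψ := N φ) (M := LinearMap.toMatrix' Cm) ?_
    intro w
    rw [← Matrix.toLin'_apply (LinearMap.toMatrix' Cm), Matrix.toLin'_toMatrix', hCm]
  have hcent' : ∀ u : Matrix (Fin g ⊕ Fin g) (Fin g ⊕ Fin g) ℚ,
      cK ℂ u * DZ Z = DZ Z * cK ℂ u → u * N φ = N φ * u → ∃ q : ℚ[X], u = aeval (N φ) q := by
    intro u hu1 hu2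
    have h3 : IsHom A A (N.symm u) := by
      refine ⟨(C'.symm.toLinearMap ∘ₗ (Matrix.mulVecLin
        (Pool.Agent.W437.HQ.PZ Z * Pool.Agent.W437.HQ.cq u * r10 g))) ∘ₗ C'.toLinearMap, fun w => ?_⟩
      change C'.symm (_ *ᵥ (C' (A.per w))) = A.per ((N.symm u) w)
      rw [hper, hNs, ← hper', ← Pool.Agent.W437.HQ.endo_of_comm hY hu1 (e' w)]
    have h4 : (N.symm u) ∘ₗ φ = φ ∘ₗ (N.symm u) := by
      apply N.injective
      change N (N.symm u * φ) = N (φ * N.symm u)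
      rw [map_mul, map_mul, AlgEquiv.apply_symm_apply, hu2]
    obtain ⟨q, hq⟩ := hcent _ h3 h4
    refine ⟨q, ?_⟩
    rw [Polynomial.aeval_algHom_apply N φ q, ← hq, AlgEquiv.apply_symm_apply]
  have hroot : ∀ μ, aeval μ P = 0 → ∀ σ : ℂ ≃+* ℂ, aeval (σ μ) P = 0 := by
    intro μ hμ σ
    rw [aeval_aut, hμ, map_zero]
  have hconj : ∀ μ, aeval μ P = 0 → aeval (starRingEnd ℂ μ) P = 0 := fun μ hμ =>
    hroot μ hμ (starRingAut (R := ℂ))
  have hle : ∀ μ, aeval μ P = 0 → mult C μ ≤ n := fun μ hμ => by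
    rw [← hmult]
    exact (hM μ hμ).1
  have hcj : ∀ μ, aeval μ P = 0 → mult C (starRingEnd ℂ μ) + mult C μ = n := by
    intro μ hμ
    have h3 := (hM μ hμ).2.1
    rw [hmult, hmult] at h3
    have h4 := hle μ hμ
    omega
  have htr : ∀ μ, aeval μ P = 0 → trace (DZ Z * (V μ * Q μ)) = 2 * (mult C μ : ℂ) - n := by
    intro μ hμ
    rw [← hmult]
    exact (hM μ hμ).2.2
  have hnM : n < 2 * M := by
    have h3 := (hm μ₀ hμ₀).2
    have h4 := (hm _ (hconj μ₀ hμ₀)).2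
    have h5 := hcj μ₀ hμ₀
    by_contra hcon
    have h6 : mult C μ₀ = M := by omega
    have h7 : mult C (starRingEnd ℂ μ₀) = M := by omega
    rw [h6, h7, Nat.coprime_self] at hcop
    omega
  let R := {μ : ℂ // μ ∈ (P.aroots ℂ).toFinset}
  have hR : ∀ r : R, aeval r.1 P = 0 := fun r =>
    (Polynomial.mem_aroots.1 (Multiset.mem_toFinset.1 r.2)).2
  have hlin : aeval (Matrix.toLinAlgEquiv' (N φ)) P = 0 := by
    rw [Polynomial.aeval_algHom_apply Matrix.toLinAlgEquiv' (N φ) P, hNP, map_zero]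
  have hdim' : 2 * Module.finrank ℂ (Fin g → ℂ) = e * n := by
    rw [Module.finrank_fin_fun, ← hdim, hg]
  have hkind : ∀ r : R, IsU 𝒲 (ofZ Z hZ hpos) n (dF (Q r.1))
      (fun σ => 2 * (mult C (σ r.1) : ℤ) - n) := by
    intro r
    refine ⟨e, M, P, Matrix.mulVecLin (N φ), r.1, hW, hP, hom_of_comm hZ hpos hZ hpos hD, hlin,
      hdim', hR r, fun v k => dF_eig (H r.1 (hR r)).2.2.1 v k, fun σ τ hστ => by simp only [hστ],
      fun σ τ hστ => ?_, fun σ => ⟨mult C (σ r.1), rfl, (hm _ (hroot _ (hR r) σ)).2⟩, hnM⟩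
    have h3 := hcj _ (hroot _ (hR r) σ)
    simp only
    rw [hστ]
    omega
  exact ⟨{
    R := R
    n := fun _ => n
    Q := fun r => Q r.1
    V := fun r => V r.1
    QV := fun r => (H r.1 (hR r)).1
    tot := by
      rw [← htot]
      exact Finset.sum_coe_sort (P.aroots ℂ).toFinset fun μ => V μ * Q μ
    mem := fun r => VQ_ct H htot hD (hR r) hP0
    prim := fun r c hc => prim H htot hD hcent' (hR r) hP0 c hc
    L := fun r =>
      { δ := dF (Q r.1)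
        s := fun σ => 2 * (mult C (σ r.1) : ℤ) - n
        wt := fun σ => wtU H htot hpos hD hP0 htr (hR r) σ
        kind := Or.inr (hkind r) }
    hL := fun r x => rfl
    hs := fun r σ => tr_conj H htr (hR r) σ
    num := fun r => by
      refine Or.inr ⟨hn3, fun σ => ?_, ?_⟩
      · have h3 := hroot _ (hR r) σ
        have h4 := hcj _ h3
        refine ⟨mult C (σ r.1), mult C (starRingEnd ℂ (σ r.1)), (hm _ h3).1,
          (hm _ (hconj _ h3)).1, by omega, ?_⟩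
        change 2 * (mult C (σ r.1) : ℤ) - n = _
        omega
      · obtain ⟨σ, hσ⟩ := root_trans hP.1 (hR r) hμ₀
        have h4 := hcj _ hμ₀
        refine ⟨σ, mult C μ₀, mult C (starRingEnd ℂ μ₀), by omega, ?_, hcop⟩
        change 2 * (mult C (σ r.1) : ℤ) - n = _
        rw [hσ]
        omega }⟩

end Pool.Agent.Q210.UW
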