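import Pool.Agent.Q180.UW.StmL
import Pool.Agent.Q280.D3.Wgt
import Pool.Agent.W437.HQ.Endo

/-!
# Project UW: determinant forms of coordinates, and the commutant
-/

set_option autoImplicit false

namespace Pool.Agent.Q210.UW

open Matrix Module Polynomial Pool.Agent.H204R3.CM Pool.Agent.H204R3.SP Pool.Agent.W437.HC
  Pool.Agent.W437.HD Pool.Agent.W437.HP Pool.Agent.W437.HR
open Pool.Agent.Q60.D3 (AV IsHom IsCM IsSimple IsIsogenousToProd cx mulF HasWeight conjF cxM ofZ
  Comm)
open Pool.Agent.Y4.K (Pol Pr mu Eqv Iso)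
open Pool.Agent.Y4.H (LZ Ct)
open Pool.Agent.Q180.UW

variable {g n : ℕ} {Z : Matrix (Fin g) (Fin g) ℂ}

/-! ## The commutant -/

/-- A matrix which commutes with all conjugates of the Hodge operator is in the commutant. -/
theorem ct_of_conj {c : Matrix (Fin g ⊕ Fin g) (Fin g ⊕ Fin g) ℂ}
    (h : ∀ σ : ℂ ≃+* ℂ, c * (DZ Z).map σ = (DZ Z).map σ * c) : Ct Z c := by
  let S : Submodule ℂ (Matrix (Fin g ⊕ Fin g) (Fin g ⊕ Fin g) ℂ) :=
    { carrier := {X | ∀ σ : ℂ ≃+* ℂ, c * X.map σ = X.map σ * c}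
      zero_mem' := fun σ => by
        rw [Matrix.map_zero _ (map_zero σ), Matrix.mul_zero, Matrix.zero_mul]
      add_mem' := fun {a b} ha hb σ => by
        rw [Matrix.map_add _ (map_add σ), Matrix.mul_add, Matrix.add_mul, ha σ, hb σ]
      smul_mem' := fun a X hX σ => by
        have h1 : (a • X).map σ = σ a • X.map σ := by
          ext i j
          simp
        rw [h1, Matrix.mul_smul, Matrix.smul_mul, hX σ] }
  have key : ∀ X ∈ S, ∀ f : ℂ →ₗ[ℚ] ℂ, c * X.map f = X.map f * c := by
    refine Pool.Agent.W548.Odd.rational_induction S (fun σ X hX τ => ?_) (fun u hu f => ?_)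
      (fun f => ?_) (fun X Y hX hY f => ?_) (fun a X hX f => ?_)
    · have h1 := hX (σ.trans τ)
      have h2 : X.map (σ.trans τ) = (X.map σ).map τ := by
        ext i j
        simp
      rwa [h2] at h1
    · have h1 := hu (RingEquiv.refl ℂ)
      have h2 : (u.map (fun x : ℚ => (x : ℂ))).map (RingEquiv.refl ℂ) = u.map (fun x : ℚ => (x : ℂ)) := by
        ext i j
        simp
      rw [h2] at h1
      have h3 : (u.map (fun x : ℚ => (x : ℂ))).map f = f 1 • u.map (fun x : ℚ => (x : ℂ)) := by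
        ext i j
        simp only [Matrix.map_apply, Matrix.smul_apply, smul_eq_mul]
        have h4 : ((u i j : ℚ) : ℂ) = (u i j) • (1 : ℂ) := by
          rw [Rat.smul_def, mul_one]
        rw [h4, map_smul, Rat.smul_def, Rat.smul_def]
        ring
      rw [h3, Matrix.mul_smul, Matrix.smul_mul, h1]
    · rw [Matrix.map_zero _ (map_zero f), Matrix.mul_zero, Matrix.zero_mul]
    · rw [Matrix.map_add _ (map_add f), Matrix.mul_add, Matrix.add_mul, hX f, hY f]
    · have h1 : (a • X).map f = X.map (f.comp (LinearMap.mulLeft ℚ a)) := by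
        ext i j
        simp
      rw [h1]
      exact hX _
  intro X hX
  let L : Submodule ℂ (Matrix (Fin g ⊕ Fin g) (Fin g ⊕ Fin g) ℂ) :=
    { carrier := {X | c * X = X * c}
      zero_mem' := by
        change c * 0 = 0 * c
        rw [Matrix.mul_zero, Matrix.zero_mul]
      add_mem' := fun {a b} ha hb => by
        change c * (a + b) = (a + b) * c
        rw [Matrix.mul_add, Matrix.add_mul, ha, hb]
      smul_mem' := fun a X hX => by
        change c * (a • X) = (a • X) * c
        rw [Matrix.mul_smul, Matrix.smul_mul, hX] }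
  refine Pool.Agent.W548.Odd.LA_le (L := L) ⟨?_, ?_⟩ hX
  · rintro d ⟨z, hz, rfl⟩ f
    rw [Set.mem_singleton_iff.1 hz]
    exact key _ h f
  · intro A hA C hC
    change c * (A * C - C * A) = (A * C - C * A) * c
    have hA' : c * A = A * c := hA
    have hC' : c * C = C * c := hC
    rw [Matrix.mul_sub, Matrix.sub_mul, ← Matrix.mul_assoc, ← Matrix.mul_assoc, hA', hC',
      Matrix.mul_assoc, Matrix.mul_assoc, hA', hC', Matrix.mul_assoc, Matrix.mul_assoc]

/-- The elements of the commutant commute with the conjugates of the Hodge operator. -/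
theorem ct_conj {c : Matrix (Fin g ⊕ Fin g) (Fin g ⊕ Fin g) ℂ} (h : Ct Z c) (σ : ℂ ≃+* ℂ) :
    c * (DZ Z).map σ = (DZ Z).map σ * c :=
  h _ (Pool.Agent.W548.Odd.LA_gen (D := DZ '' {Z}) (d := DZ Z) ⟨Z, rfl, rfl⟩ (Pool.Agent.W548.Odd.rlm (σ : ℂ →+* ℂ)))

/-! ## Determinant forms -/

/-- The matrix of coordinates. -/
def mC (Q : Matrix (Fin n) (Fin g ⊕ Fin g) ℂ) (x : Fin n → Fin g ⊕ Fin g → ℂ) :
    Matrix (Fin n) (Fin n) ℂ := Matrix.of fun a b => (Q *ᵥ x a) b

theorem mC_update (Q : Matrix (Fin n) (Fin g ⊕ Fin g) ℂ) (x : Fin n → Fin g ⊕ Fin g → ℂ) (k : Fin n)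
    (y : Fin g ⊕ Fin g → ℂ) :
    mC Q (Function.update x k y) = (mC Q x).updateRow k (Q *ᵥ y) := by
  ext a b
  rw [Matrix.updateRow_apply]
  unfold mC
  rw [Matrix.of_apply, Matrix.of_apply]
  by_cases h : a = k
  · subst h
    rw [Function.update_self, if_pos rfl]
  · rw [Function.update_of_ne h, if_neg h]

/-- A rational vector as a complex vector. -/
def cq (x : Fin g ⊕ Fin g → ℚ) : Fin g ⊕ Fin g → ℂ := fun i => ((x i : ℚ) : ℂ)

theorem cq_add (x y : Fin g ⊕ Fin g → ℚ) : cq (x + y) = cq x + cq y := by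
  funext i
  simp [cq]

theorem cq_smul (c : ℚ) (x : Fin g ⊕ Fin g → ℚ) : cq (c • x) = (c : ℂ) • cq x := by
  funext i
  simp [cq]

theorem cq_single (i : Fin g ⊕ Fin g) : cq (Pi.single i 1) = Pi.single i 1 := by
  funext j
  unfold cq
  simp only [Pi.single_apply]
  split_ifs <;> simp

theorem cq_update (x : Fin n → Fin g ⊕ Fin g → ℚ) (k : Fin n) (y : Fin g ⊕ Fin g → ℚ) :
    (fun a => cq (Function.update x k y a)) = Function.update (fun a => cq (x a)) k (cq y) := by
  funext a
  by_cases h : a = k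
  · subst h
    rw [Function.update_self, Function.update_self]
  · rw [Function.update_of_ne h, Function.update_of_ne h]

/-- The determinant form on the rational vectors. -/
noncomputable def dF (Q : Matrix (Fin n) (Fin g ⊕ Fin g) ℂ) :
    (Fin g ⊕ Fin g → ℚ) [⋀^Fin n]→ₗ[ℚ] ℂ where
  toFun x := (mC Q fun a => cq (x a)).det
  map_update_add' := by
    intro inst x k y z
    have h : inst = instDecidableEqFin n := Subsingleton.elim _ _
    subst h
    rw [cq_update, cq_update, cq_update, mC_update, mC_update, mC_update, cq_add,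
      ← Matrix.det_updateRow_add]
    congr 2
    rw [mulVec_add]
  map_update_smul' := by
    intro inst x k c y
    have h : inst = instDecidableEqFin n := Subsingleton.elim _ _
    subst h
    rw [cq_update, cq_update, mC_update, mC_update, cq_smul, Rat.smul_def,
      ← Matrix.det_updateRow_smul]
    congr 2
    rw [mulVec_smul]
  map_eq_zero_of_eq' := by
    intro x i j hij hne
    refine Matrix.det_zero_of_row_eq hne ?_
    funext b
    change (Q *ᵥ cq (x i)) b = (Q *ᵥ cq (x j)) b
    rw [hij]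

theorem dF_apply (Q : Matrix (Fin n) (Fin g ⊕ Fin g) ℂ) (x : Fin n → Fin g ⊕ Fin g → ℚ) :
    dF Q x = (Matrix.of fun a b : Fin n => (Q *ᵥ fun i => ((x a i : ℚ) : ℂ)) b).det := rfl

theorem dF_apply' (Q : Matrix (Fin n) (Fin g ⊕ Fin g) ℂ) (x : Fin n → Fin g ⊕ Fin g → ℚ) :
    dF Q x = (mC Q fun a => cq (x a)).det := rfl

/-- The eigenvalue. -/
theorem dF_eig {Q : Matrix (Fin n) (Fin g ⊕ Fin g) ℂ} {φ : Matrix (Fin g ⊕ Fin g) (Fin g ⊕ Fin g) ℚ}
    {μ : ℂ} (h : Q * cK ℂ φ = μ • Q) (x : Fin n → Fin g ⊕ Fin g → ℚ) (k : Fin n) :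
    dF Q (Function.update x k (φ *ᵥ x k)) = μ * dF Q x := by
  rw [dF_apply', dF_apply', cq_update, mC_update]
  have h1 : Q *ᵥ cq (φ *ᵥ x k) = μ • (mC Q fun a => cq (x a)) k := by
    have h2 : cq (φ *ᵥ x k) = cK ℂ φ *ᵥ cq (x k) := Pool.Agent.Q60.D3.cast_mulVec φ (x k)
    rw [h2, mulVec_mulVec, h, smul_mulVec]
    rfl
  rw [h1, Matrix.det_updateRow_smul, Matrix.updateRow_eq_self]

/-- The conjugates. -/
theorem conj_dF (σ : ℂ ≃+* ℂ) (Q : Matrix (Fin n) (Fin g ⊕ Fin g) ℂ) :
    conjF σ (dF Q).toMultilinearMap = (dF (Q.map (σ : ℂ →+* ℂ))).toMultilinearMap := by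
  refine MultilinearMap.ext fun x => ?_
  change σ (mC Q fun a => cq (x a)).det = (mC (Q.map (σ : ℂ →+* ℂ)) fun a => cq (x a)).det
  have h1 : σ (mC Q fun a => cq (x a)).det = (σ : ℂ →+* ℂ) (mC Q fun a => cq (x a)).det := rfl
  rw [h1, RingHom.map_det]
  congr 1
  ext a b
  simp only [RingHom.mapMatrix_apply, Matrix.map_apply, mC, Matrix.of_apply, mulVec, dotProduct,
    map_sum, map_mul, cq, map_ratCast]

theorem det_update_sum (M T : Matrix (Fin n) (Fin n) ℂ) :
    ∑ k, (M.updateRow k (T *ᵥ M k)).det = trace T * M.det := by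
  have h1 : ∀ k, (M.updateRow k (T *ᵥ M k)).det = ∑ b, (T *ᵥ M k) b * M.adjugate b k := by
    intro k
    rw [Matrix.det_eq_sum_mul_adjugate_row _ k]
    refine Finset.sum_congr rfl fun b _ => ?_
    rw [Matrix.updateRow_self]
    congr 1
    rw [Matrix.adjugate_apply, Matrix.adjugate_apply]
    congr 1
    ext a c
    by_cases h : a = k
    · subst h
      simp
    · simp [Matrix.updateRow_apply, h]
  simp only [h1]
  have h2 : ∀ k b, (T *ᵥ M k) b * M.adjugate b k = ∑ c, T b c * (M.adjugate b k * M k c) := by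
    intro k b
    rw [mulVec, dotProduct, Finset.sum_mul]
    refine Finset.sum_congr rfl fun c _ => ?_
    ring
  simp only [h2]
  rw [Finset.sum_comm]
  have h3 : ∀ b, ∑ k, ∑ c, T b c * (M.adjugate b k * M k c) = T b b * M.det := by
    intro b
    rw [Finset.sum_comm]
    have h4 : ∀ c, ∑ k, T b c * (M.adjugate b k * M k c) = T b c * (if b = c then M.det else 0) := by
      intro c
      rw [← Finset.mul_sum]
      congr 1
      have h5 := congrFun (congrFun (Matrix.adjugate_mul M) b) c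
      rw [Matrix.mul_apply] at h5
      rw [h5, Matrix.smul_apply, Matrix.one_apply, smul_eq_mul, mul_ite, mul_one, mul_zero]
    simp only [h4, mul_ite, mul_zero, Finset.sum_ite_eq, Finset.mem_univ, if_true]
  rw [Finset.sum_congr rfl fun b _ => h3 b, ← Finset.sum_mul]
  rfl

/-- The weight. -/
theorem dF_act {Q : Matrix (Fin n) (Fin g ⊕ Fin g) ℂ} {T : Matrix (Fin n) (Fin n) ℂ}
    (hT : Q * DZ Z = T * Q) {w : ℤ} (hw : trace T = (w : ℂ)) :
    act (DZ Z) (fun I : Fin n → Fin g ⊕ Fin g => (dF Q).toMultilinearMap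
      fun k => Pi.single (I k) 1) = (w : ℂ) •
      (fun I : Fin n → Fin g ⊕ Fin g => (dF Q).toMultilinearMap fun k => Pi.single (I k) 1) := by
  funext I
  obtain ⟨x, hx⟩ : ∃ x : Fin n → Fin g ⊕ Fin g → ℂ, x = fun a => Pi.single (I a) 1 := ⟨_, rfl⟩
  have h0 : ∀ J : Fin n → Fin g ⊕ Fin g, (dF Q).toMultilinearMap (fun k => Pi.single (J k) 1) =
      (mC Q fun a => Pi.single (J a) 1).det := by
    intro J
    change (mC Q fun a => cq (Pi.single (J a) 1)).det = _
    simp only [cq_single]
  have h1 : ∀ k : Fin n, ∑ j, DZ Z j (I k) * (dF Q).toMultilinearMap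
      (fun a => Pi.single (Function.update I k j a) 1) =
      (mC Q (Function.update x k (DZ Z *ᵥ x k))).det := by
    intro k
    have h2 : ∀ j, (fun a => (Pi.single (Function.update I k j a) 1 : Fin g ⊕ Fin g → ℂ)) =
        Function.update x k (Pi.single j 1) := by
      intro j
      funext a
      by_cases h : a = k
      · subst h
        rw [Function.update_self, Function.update_self]
      · rw [Function.update_of_ne h, Function.update_of_ne h, hx]
    have h4 : ∀ y : Fin g ⊕ Fin g → ℂ, (mC Q (Function.update x k y)).det =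
        ∑ b, (Q *ᵥ y) b * (mC Q x).adjugate b k := by
      intro y
      rw [mC_update, Matrix.det_eq_sum_mul_adjugate_row _ k]
      refine Finset.sum_congr rfl fun b _ => ?_
      rw [Matrix.updateRow_self]
      congr 1
      rw [Matrix.adjugate_apply, Matrix.adjugate_apply]
      congr 1
      ext a c
      by_cases h : a = k
      · subst h
        simp
      · simp [Matrix.updateRow_apply, h]
    have h5 : DZ Z *ᵥ x k = ∑ j, DZ Z j (I k) • (Pi.single j 1 : Fin g ⊕ Fin g → ℂ) := by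
      rw [hx]
      funext i
      rw [Finset.sum_apply, Finset.sum_eq_single i]
      · simp
      · intro b _ hb
        rw [Pi.smul_apply, Pi.single_eq_of_ne (Ne.symm hb), smul_zero]
      · intro h
        exact absurd (Finset.mem_univ _) h
    rw [h4, h5]
    simp only [h0, h2, h4, mulVec_sum, mulVec_smul, Finset.sum_apply, Pi.smul_apply, smul_eq_mul,
      Finset.mul_sum, Finset.sum_mul]
    rw [Finset.sum_comm]
    refine Finset.sum_congr rfl fun b _ => Finset.sum_congr rfl fun j _ => ?_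
    ring
  have h6 : ∀ k : Fin n, (mC Q (Function.update x k (DZ Z *ᵥ x k))).det =
      ((mC Q x).updateRow k (T *ᵥ mC Q x k)).det := by
    intro k
    rw [mC_update, mulVec_mulVec, hT, ← mulVec_mulVec]
    rfl
  change ∑ k, ∑ j, DZ Z j (I k) * (dF Q).toMultilinearMap
      (fun a => Pi.single (Function.update I k j a) 1) = _
  simp only [h1, h6]
  rw [det_update_sum, Pi.smul_apply, h0, smul_eq_mul, hx, hw]

/-- The weight of a determinant form. -/
theorem dF_wt (hpos : (imM Z).PosDef) {Q : Matrix (Fin n) (Fin g ⊕ Fin g) ℂ}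
    {T : Matrix (Fin n) (Fin n) ℂ} (hT : Q * DZ Z = T * Q) {w : ℤ} (hw : trace T = (w : ℂ)) :
    HasWeight (perOne Z) (dF Q).toMultilinearMap w :=
  Pool.Agent.Q280.D3.wgt g Z hpos (Fin n) _ _ (dF_act hT hw)

theorem trace_map {m : Type*} [Fintype m] (σ : ℂ ≃+* ℂ) (M : Matrix m m ℂ) :
    (M.map (σ : ℂ →+* ℂ)).trace = σ M.trace := by
  simp [Matrix.trace, map_sum]

end Pool.Agent.Q210.UW
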